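import Pool.Agent.Lib.MP_696deb_nt.EW.K5
import Pool.Agent.Lib.MP_23455a_nt.H3.RD
import Pool.Agent.Lib.MP_23455a_nt.H3.BAb

/-! The kernel of reduction and the action of Frobenius elements on division points. -/

set_option autoImplicit false

open scoped Classical
open Finset WeierstrassCurve.Affine

namespace Pool.Agent.Lib.MP_696deb_nt.EW

export Pool.Agent.Lib.MP_696deb_nt.CU (Dec Ine IsFrob GK T_ne kT F3)
export Pool.Agent.Lib.MP_696deb_nt.CL (nm Prim)

open CL (nm_mul nm_star nm_nonneg mul_star_self)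
open CU (om_smul om_cube th_sq kT_one smul_kT th_kT exists_kT F3_cases)
open H3.TA (zeta_cube tae_ext)

theorem x_om (P : A) : xco (om • P) = zeta 1 ^ 2 * xco P := by
  rw [om_smul]
  rcases P with _ | ⟨x, y, h⟩
  · exact (mul_zero _).symm
  · rfl

theorem y_om (P : A) : yco (om • P) = yco P := by
  rw [om_smul]
  rcases P with _ | ⟨x, y, h⟩ <;> rfl

theorem y2_om (P : A) : y2 (om • P) = y2 P := by rw [y2, y2, ← smul_neg, y_om, y_om]

theorem yh_om (P : A) : yh (om • P) = yh P := by rw [yh, yh, y2_om]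

theorem isUnit_om : IsUnit om := .of_mul_eq_one (om ^ 2) (by decide)

theorem V_zeta (v : Plc) : v.V (zeta 1) = 1 := v.V_root_of_unity three_ne_zero zeta_cube

/-- The kernel of reduction. -/
noncomputable def Kr (v : Plc) : Submodule O A where
  toAddSubmonoid := (H3.K1 v).toAddSubmonoid
  smul_mem' c P h := by
    refine add_mem (zsmul_mem (S := AddSubgroup A) h _) (zsmul_mem (H3.mem_K1.2
      ((H3.mem_K1.1 h).imp (fun e => by rw [e, map_zero]) fun e => ?_)) _)
    rwa [← om_smul, x_om, map_mul, map_pow, V_zeta, one_pow, one_mul]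

variable {v : Plc} {P Q : A} {n : O}

theorem mem_Kr : P ∈ Kr v ↔ P = 0 ∨ 1 < v.V (xco P) := H3.mem_K1

theorem V_x (h : P ∉ Kr v) : v.V (xco P) ≤ 1 := (H3.V_xco_le h).1

theorem V_y (h : P ∉ Kr v) : v.V (yco P) ≤ 1 := (H3.V_xco_le h).2

theorem V_y2 (h : P ∉ Kr v) : v.V (y2 P) ≤ 1 :=
  v.V.map_sub_le (V_y h) (V_y (mt neg_mem_iff.1 h))

theorem V_nat (v : Plc) {p : ℕ} (hp : p.Prime) (hv : v.p ≠ p) : v.V p = 1 := by
  simpa using (v.V_int_eq_one (a := p)).2 fun e => hv
    ((Nat.prime_dvd_prime_iff_eq v.prime hp).1 (Int.natCast_dvd_natCast.1 e))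

theorem V_two (hv : v.p ≠ 2) : v.V 2 = 1 := by simpa using V_nat v Nat.prime_two hv

theorem V_three (hv : v.p ≠ 3) : v.V 3 = 1 := H3.rd_three hv

theorem V_two_le (v : Plc) : v.V 2 ≤ 1 := by simpa using v.V_int_le 2

theorem V_three_le (v : Plc) : v.V 3 ≤ 1 := by simpa using v.V_int_le 3

theorem V_yh_eq (hv : v.p ≠ 2) (P : A) : v.V (yh P) = v.V (y2 P) := by
  rw [yh, map_div₀, V_two hv, div_one]

theorem V_yh (hv : v.p ≠ 2) (h : P ∉ Kr v) : v.V (yh P) ≤ 1 := (V_yh_eq hv P).trans_le (V_y2 h)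

theorem near_of_Kr (h : P ∉ Kr v) (k : P - Q ∈ Kr v) :
    v.V (xco P - xco Q) < 1 ∧ v.V (yco P - yco Q) < 1 := H3.near_of_K1 h k

theorem Kr_near (hv : v.p ≠ 3) (h : P ∉ Kr v) (k : Q ∉ Kr v) (hx : v.V (xco P - xco Q) < 1)
    (hy : v.V (yco P - yco Q) < 1) : P - Q ∈ Kr v := H3.K1_near hv h k hx hy

theorem co_eq0 (h : P ≠ 0) : yco P ^ 2 + yco P = xco P ^ 3 - 7 := H3.rd_eqn h

theorem y2_sq (h : P ≠ 0) : y2 P ^ 2 = 4 * xco P ^ 3 - 27 := by
  rw [y2_eq h]
  linear_combination 4 * co_eq0 h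

theorem co_eq (h : P ≠ 0) : yh P ^ 2 = xco P ^ 3 - 27 / 4 := by
  rw [yh]
  linear_combination y2_sq h / 4

theorem th_eq : th = om * (1 - om) := by decide

theorem th_iff : th • P = 0 ↔ om • P = P := by
  rw [th_eq, mul_smul, isUnit_om.smul_eq_zero, sub_smul, one_smul, sub_eq_zero, eq_comm]

theorem x_ne (h : th • P ≠ 0) : xco P ≠ 0 := fun e => h (by
  have p0 : P ≠ 0 := fun k => h (by rw [k, smul_zero])
  exact th_iff.2 (H3.rd_ext (mt isUnit_om.smul_eq_zero.1 p0) p0 (by rw [x_om, e, mul_zero])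
    (y_om P)))

theorem zsq_ne : zeta 1 ^ 2 ≠ 1 := fun e => by
  have := zeta_sq
  rw [e] at this
  norm_num at this

theorem x_zero (h : th • P = 0) : xco P = 0 := by
  have := x_om P
  rw [th_iff.1 h] at this
  exact (mul_eq_zero.1 (show (zeta 1 ^ 2 - 1) * xco P = 0 by
    linear_combination -this)).resolve_left (sub_ne_zero.2 zsq_ne)

theorem w_T : th • T = 0 := by rw [← kT_one, th_kT]

theorem x_T : xco T = 0 := x_zero w_T

theorem x_T3 : xco T3 = 3 := rfl

theorem x_eq (h0 : P ≠ 0) (h1 : Q ≠ 0) (h : xco P = xco Q) : P = Q ∨ P = -Q := by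
  rcases P with _ | ⟨x, y, k⟩
  · exact absurd rfl h0
  rcases Q with _ | ⟨x', y', k'⟩
  · exact absurd rfl h1
  exact Point.X_eq_iff.1 h

theorem x_add0 (hP : P ≠ 0) (hQ : Q ≠ 0) (h : xco P ≠ xco Q) :
    xco (P + Q) = ((yco P - yco Q) / (xco P - xco Q)) ^ 2 - xco P - xco Q := by
  obtain ⟨l, ν, h1, h2, -, h3, -⟩ := H3.rd_line hP hQ fun e => h (by
    rw [eq_neg_of_add_eq_zero_left e, xco_neg])
  rw [show yco P - yco Q = l * (xco P - xco Q) by linear_combination h1 - h2,
    mul_div_cancel_right₀ _ (sub_ne_zero.2 h)]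
  linear_combination h3

theorem x_add (hP : P ≠ 0) (hQ : Q ≠ 0) (h : xco P ≠ xco Q) :
    xco (P + Q) = ((yh P - yh Q) / (xco P - xco Q)) ^ 2 - xco P - xco Q := by
  rw [x_add0 hP hQ h, yh_eq hP, yh_eq hQ, add_sub_add_right_eq_sub]

theorem x_three (h : th • P ≠ 0) : xco P * xco (P + T) * xco (P - T) = 27 := by
  have hx := x_ne h
  have p0 : P ≠ 0 := fun k => h (by rw [k, smul_zero])
  have e1 := co_eq p0
  have e2 := co_eq T_ne
  rw [sub_eq_add_neg, x_add p0 T_ne (by rwa [x_T]),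
    x_add p0 (neg_ne_zero.2 T_ne) (by rwa [xco_neg, x_T]), xco_neg, co_neg]
  rw [x_T] at e2 ⊢
  generalize xco P = x, yh P = y, yh T = t at *
  have e3 : x ^ 3 = (y - t) * (y + t) := by linear_combination e2 - e1
  simp only [sub_zero]
  rw [show ((y - t) / x) ^ 2 - x = (y - t) * (-2 * t) / x ^ 2 by
      field_simp; linear_combination -e3,
    show ((y - -t) / x) ^ 2 - x = (y + t) * (2 * t) / x ^ 2 by field_simp; linear_combination -e3]
  field_simp
  linear_combination (-4 * (y - t) * (y + t)) * e2 - 27 * e3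

theorem smul_T (h : red n ≠ 0) : n • T = T ∨ n • T = -T := by
  rw [← kT_one, smul_kT, mul_one, ← map_neg]
  rcases F3_cases (red n) with e | e | e
  · exact absurd e h
  · exact .inl (by rw [e])
  · exact .inr (by rw [e]; rfl)

theorem smul_T_ne (h : red n ≠ 0) : n • T ≠ 0 := by
  rcases smul_T h with e | e <;> rw [e]
  · exact T_ne
  · exact neg_ne_zero.2 T_ne

theorem ne_of_red (h : red n ≠ 0) : n ≠ 0 := fun e => h (by rw [e, map_zero])

theorem ne_of_smul (hn : n ≠ 0) {c : O} (h : c • n • P ≠ 0) {S : A} (hS : S ∈ En n) :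
    c • (P + S) ≠ 0 := fun e => h (by
  have := congrArg (n • ·) e
  simpa only [smul_comm n c, smul_add, (mem_En hn).1 hS, add_zero, smul_zero] using this)

/-- The distribution relation for the first coordinate. -/
theorem x_norm (h : red n ≠ 0) (hP : n • P ≠ 0) : ∏ S ∈ En n, xco (P + S) =
    io n ^ 2 * (∏ S ∈ (En n).erase 0, xco S) * xco (n • P) := by
  have := x_dist (ne_of_red h) hP (smul_T_ne h)
  rw [x_T, x_zero (P := n • T) (by rw [smul_comm, w_T, smul_zero])] at this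
  simpa only [sub_zero] using this

theorem th_T3 : th • T3 = T := rfl

theorem three_T3 : (3 : O) • T3 = 0 := by
  rw [← H3.TA.three_T3, ← Nat.cast_smul_eq_nsmul O, Nat.cast_ofNat]

theorem w_T3 : th ^ 2 • T3 = 0 ∧ th • T3 ≠ 0 :=
  ⟨by rw [th_sq, neg_smul, three_T3, neg_zero], T_ne⟩

theorem wn_T3 (h : red n ≠ 0) : th • n • T3 ≠ 0 := by
  rw [smul_comm, th_T3]
  exact smul_T_ne h

theorem n_T3 (h : red n ≠ 0) : n • T3 ≠ 0 := fun e => wn_T3 h (by rw [e, smul_zero])

theorem prod_cube (h : red n ≠ 0) : (io n ^ 2 * ∏ S ∈ (En n).erase 0, xco S) ^ 3 =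
    27 ^ ((En n).erase 0).card := by
  have h1 := wn_T3 h
  have k : ∀ U : A, th • U = 0 → n • (T3 + U) ≠ 0 := fun U hU e => h1 (by
    have := congrArg (th • ·) e
    simpa only [smul_add, smul_comm th n U, hU, add_zero, smul_zero] using this)
  have a1 := x_norm h (n_T3 h)
  have a2 := x_norm h (k T w_T)
  have a3 := x_norm h (k (-T) (by rw [smul_neg, w_T, neg_zero]))
  have a4 := congrArg₂ (· * ·) (congrArg₂ (· * ·) a1 a2) a3
  simp only [← prod_mul_distrib] at a4
  rw [prod_congr rfl (g := fun _ => 27) fun S hS => by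
    rw [add_right_comm, add_right_comm T3 (-T), ← sub_eq_add_neg]
    exact x_three (ne_of_smul (ne_of_red h) h1 hS), prod_const,
    ← card_erase_add_one (zero_mem_En (ne_of_red h)), smul_add, smul_add, smul_neg,
    ← sub_eq_add_neg] at a4
  have a5 : xco (n • T3) * xco (n • T3 + n • T) * xco (n • T3 - n • T) = 27 := by
    rcases smul_T h with e | e <;> rw [e]
    · exact x_three h1
    · rw [sub_neg_eq_add, ← sub_eq_add_neg, mul_right_comm]
      exact x_three h1
  refine mul_right_cancel₀ (show (27 : Qbar) ≠ 0 by norm_num) ?_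
  rw [← pow_succ, a4, ← a5]
  ring

theorem V_prod' (h : red n ≠ 0) : v.V (io n ^ 2 * ∏ S ∈ (En n).erase 0, xco S) =
    v.V 3 ^ ((En n).erase 0).card := by
  refine (pow_left_inj₀ zero_le zero_le three_ne_zero).1 ?_
  rw [← map_pow, prod_cube h, map_pow, pow_right_comm, ← map_pow v.V 3 3]
  norm_num

theorem V_prod (hv : v.p ≠ 3) (h : red n ≠ 0) :
    v.V (io n ^ 2 * ∏ S ∈ (En n).erase 0, xco S) = 1 := by rw [V_prod' h, V_three hv, one_pow]

theorem V_io_le (v : Plc) (n : O) : v.V (io n) ≤ 1 := by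
  rw [io_apply]
  exact v.V.map_add_le (v.V_int_le _) (by
    rw [map_mul, map_pow, V_zeta, one_pow, mul_one]; exact v.V_int_le _)

theorem red_zero : red n = 0 ↔ (3 : ℤ) ∣ n.re + n.im := by
  refine Iff.trans ?_ (ZMod.intCast_zmod_eq_zero_iff_dvd _ 3)
  rw [Int.cast_add]
  rfl

theorem w_dvd (h : red n = 0) : th ∣ n := by
  obtain ⟨c, e⟩ := red_zero.1 h
  exact ⟨⟨2 * c - n.re, c - n.re⟩, by
    ext <;> simp only [CU.th, QuadraticAlgebra.re_mul, QuadraticAlgebra.im_mul] <;> omega⟩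

theorem w_dvd_iff : th ∣ n ↔ red n = 0 :=
  ⟨fun ⟨c, e⟩ => by rw [e, map_mul, CU.red_th, zero_mul], w_dvd⟩

theorem th_prime : Prime th := by
  refine ⟨by decide, fun k => absurd (isUnit_iff.1 k) (by decide), fun a b h => ?_⟩
  rwa [w_dvd_iff, map_mul, mul_eq_zero, ← w_dvd_iff, ← w_dvd_iff] at h

theorem red_prime (hp : Prime n) : red n ≠ 0 ∨ Associated th n :=
  (ne_or_eq (red n) 0).imp_right fun e =>
    th_prime.irreducible.associated_of_dvd hp.irreducible (w_dvd e)

theorem Kr_all (hp : Prime n) (h : P ∈ Kr v) (h0 : P ≠ 0) (hP : n • P = 0) (hQ : n • Q = 0) :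
    Q ∈ Kr v := by
  obtain ⟨a, rfl⟩ := exists_eq_tq hp.ne_zero hP
  obtain ⟨b, rfl⟩ := exists_eq_tq hp.ne_zero hQ
  obtain ⟨s, t, e⟩ := (hp.irreducible.coprime_iff_not_dvd).2 (mt (smul_tq_one hp.ne_zero).2 h0)
  have := (Kr v).smul_mem (b * t) h
  rwa [smul_smul, mul_assoc, eq_sub_of_add_eq' e, mul_sub, mul_one, sub_smul,
    (smul_tq_one hp.ne_zero).2 ((dvd_mul_left n s).mul_left b), sub_zero] at this

theorem erase_ne (hp : Prime n) : tq 1 n ∈ (En n).erase 0 :=
  mem_erase.2 ⟨fun e => hp.not_dvd_one ((tq_eq_zero hp.ne_zero).1 e),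
    (mem_En hp.ne_zero).2 ((smul_tq_one hp.ne_zero).2 dvd_rfl)⟩

/-- Reduction is injective on the torsion of order prime to the place. -/
theorem Kr_tors (hn : v.V (io n) = 1) (h : P ∈ Kr v) (hP : n • P = 0) : P = 0 := by
  induction n using UniqueFactorizationMonoid.induction_on_prime generalizing P with
  | h₁ => simp at hn
  | h₂ u hu => exact hu.smul_eq_zero.1 hP
  | h₃ a p _ hp ih =>
    rw [map_mul, map_mul] at hn
    have h1 : v.V (io p) = 1 := le_antisymm (V_io_le v p)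
      (hn.symm.trans_le (mul_le_of_le_one_right' (V_io_le v a)))
    rw [h1, one_mul] at hn
    refine ih hn h (by_contra fun h0 => ?_)
    rw [mul_smul] at hP
    have h2 := (Kr v).smul_mem a h
    rcases red_prime hp with e | ⟨u, rfl⟩
    · have h3 := (V_prod' (v := v) e).trans_le (pow_le_one' (V_three_le v) _)
      rw [map_mul, map_pow, h1, one_pow, one_mul, map_prod] at h3
      have h4 : ∀ S ∈ (En p).erase 0, 1 < v.V (xco S) := fun S hS => (mem_Kr.1 (Kr_all hp h2 h0 hP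
        ((mem_En hp.ne_zero).1 (mem_of_mem_erase hS)))).resolve_left (ne_of_mem_erase hS)
      exact ((one_lt_prod_iff_of_one_le fun S hS => (h4 S hS).le).2
        ⟨_, erase_ne hp, h4 _ (erase_ne hp)⟩).not_ge h3
    · rw [mul_comm, mul_smul, u.isUnit.smul_eq_zero] at hP
      rw [mem_Kr, x_zero hP] at h2
      simp [h0] at h2

theorem V_three_of (h : red n ≠ 0) (hv : v.V (io n) < 1) : v.p ≠ 3 := fun e => by
  have h1 : v.V (nm n : Qbar) < 1 := by
    rw [← map_intCast io, ← mul_star_self, map_mul, map_mul]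
    exact mul_lt_one_of_lt_of_le hv (V_io_le v _)
  refine h1.ne (v.V_int_eq_one.2 ?_)
  rw [e, Nat.cast_ofNat, CL.three_dvd_nm, ← red_zero]
  exact h

/-- The points killed by a prime reduce to zero at the places above it. -/
theorem mem_Kr_of (hp : Prime n) (h : red n ≠ 0) (hv : v.V (io n) < 1) (hP : n • P = 0) :
    P ∈ Kr v := by
  by_contra k
  have h3 := V_prod (V_three_of h hv) h
  rw [map_mul, map_pow, map_prod] at h3
  refine (mul_lt_one_of_lt_of_le (pow_lt_one' hv two_ne_zero) (prod_le_one' fun S hS =>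
    V_x fun e => k ?_)).ne h3
  exact Kr_all hp e (ne_of_mem_erase hS) ((mem_En hp.ne_zero).1 (mem_of_mem_erase hS)) hP

theorem V_prod_sub {ι : Type} (s : Finset ι) {f : ι → Qbar} {x : Qbar} (hx : v.V x ≤ 1)
    (h : ∀ i ∈ s, v.V (f i - x) < 1) : v.V (∏ i ∈ s, f i - x ^ s.card) < 1 := by
  induction s using Finset.induction_on with
  | empty => simp
  | insert a s ha ih =>
    have h1 := h a (mem_insert_self _ _)
    have h2 := ih fun i hi => h i (mem_insert_of_mem hi)
    rw [prod_insert ha, card_insert_of_notMem ha, show f a * ∏ i ∈ s, f i - x ^ (s.card + 1) =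
      (f a - x) * (∏ i ∈ s, f i - x ^ s.card) + (f a - x) * x ^ s.card +
        (∏ i ∈ s, f i - x ^ s.card) * x by ring]
    refine v.V.map_add_lt (v.V.map_add_lt ?_ ?_) ?_ <;> rw [map_mul]
    · exact mul_lt_one_of_lt_of_le h1 h2.le
    · exact mul_lt_one_of_lt_of_le h1 (by rw [map_pow]; exact pow_le_one' hx _)
    · exact mul_lt_one_of_lt_of_le h2 hx

theorem vm_smul {g : Gam} (hg : g ∈ GK 3) (c : O) (P : A) : g • c • P = c • g • P := by
  rw [CU.gal_smul, if_pos (CU.mem_GK.1 hg)]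

theorem xco_act (g : Gam) (P : A) : xco (g • P) = g (xco P) := H3.xco_smul g P

theorem yco_act (g : Gam) (P : A) : yco (g • P) = g (yco P) := H3.yco_smul g P

theorem y2_act (g : Gam) (P : A) : y2 (g • P) = g (y2 P) := y2_pm (g : Qbar →+* Qbar) P

theorem yh_act (g : Gam) (P : A) : yh (g • P) = g (yh P) := yh_pm (g : Qbar →+* Qbar) P

theorem prim_eq (h : Prim n) : ∃ c, n = 1 + 3 * c := by
  obtain ⟨h1, h2⟩ := h
  exact ⟨⟨n.re / 3, n.im / 3⟩, by
    rw [show (1 : O) = ⟨1, 0⟩ from rfl, show (3 : O) = ⟨3, 0⟩ from rfl]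
    ext <;> simp <;> omega⟩

theorem prim_red1 (h : Prim n) : red n = 1 := by
  obtain ⟨c, rfl⟩ := prim_eq h
  rw [map_add, map_one, map_mul, show red 3 = 0 by decide, zero_mul, add_zero]

theorem prim_red (h : Prim n) : red n ≠ 0 := by
  rw [prim_red1 h]
  exact one_ne_zero

theorem V_w (hv : v.p ≠ 3) : v.V (io th) = 1 := by
  refine (pow_eq_one_iff_left two_ne_zero).1 ?_
  rw [← map_pow, ← map_pow, th_sq, map_neg, v.V.map_neg, map_ofNat, V_three hv]

theorem frob_II {N : ℕ} (hN : N % 3 = 1) (hv : v.p ≠ 3) {g : Gam} (hg : IsFrob v N g) :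
    g ∈ GK 3 := by
  rw [H3.mem_GK3, H3.cy, H3.cyc_frob hv hg, map_natCast, ← Nat.div_add_mod N 3, hN]
  push_cast
  rw [show (3 : ZMod (3 ^ 1)) = 0 from rfl, zero_mul, zero_add]

theorem prim_norm (h : Prim n) : (nm n).natAbs % 3 = 1 := by
  obtain ⟨h1, h2⟩ := h
  obtain ⟨a, ha⟩ : ∃ a, n.re = 3 * a + 1 := ⟨n.re / 3, by omega⟩
  obtain ⟨b, hb⟩ : ∃ b, n.im = 3 * b := ⟨n.im / 3, by omega⟩
  have : nm n = 3 * (3 * a * a + 2 * a - 3 * a * b - b + 3 * b * b) + 1 := by
    rw [CL.nm, ha, hb]; ring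
  have := nm_nonneg n
  omega

theorem prim_T3 (h : Prim n) : n • T3 = T3 := by
  obtain ⟨c, hc⟩ := prim_eq h
  rw [hc, add_smul, one_smul, mul_comm, mul_smul, three_T3, smul_zero, add_zero]

/-- Frobenius elements act on division points as multiplication by the primary generator. -/
theorem frob {z : O} (hp : Prime z) (h : Prim z) (hv : v.V (io z) < 1) {g : Gam}
    (hg : IsFrob v (nm z).natAbs g) (hn : v.V (io n) = 1) (hP : n • P = 0) : g • P = z • P := by
  have r1 := prim_red h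
  have v2 := V_three_of r1 hv
  have gI := frob_II (prim_norm h) v2 hg
  have z3 := prim_T3 h
  have cong : ∀ P : A, P ∉ Kr v → z • P ≠ 0 ∧ v.V (io z ^ 2 * (∏ S ∈ (En z).erase 0, xco S) *
      xco (z • P) - xco P ^ (nm z).natAbs) < 1 := fun P k => by
    have k0 : z • P ≠ 0 := fun e => k (mem_Kr_of hp r1 hv e)
    rw [← x_norm r1 k0, ← card_En hp.ne_zero, Int.natAbs_natCast]
    refine ⟨k0, V_prod_sub _ (V_x k) fun S hS => ?_⟩
    rw [v.V.map_sub_swap]
    exact (near_of_Kr k (by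
      rw [sub_add_cancel_left]
      exact neg_mem (mem_Kr_of hp r1 hv ((mem_En hp.ne_zero).1 hS)))).1
  have c1 : v.V (io z ^ 2 * (∏ S ∈ (En z).erase 0, xco S) - 1) < 1 := by
    have c0 := (cong T3 (by simp [mem_Kr, x_T3, H3.TA.T3_ne, V_three v2])).2
    have c2 := hg.2 3 (V_three_le v)
    rw [z3, x_T3] at c0
    rw [map_ofNat] at c2
    have := v.V.map_sub_lt c0 c2
    rwa [sub_sub_sub_cancel_right, ← sub_one_mul, map_mul, V_three v2, mul_one] at this
  have key : ∀ (n : O) (P : A), v.V (io n) = 1 → n • P = 0 →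
      g • P = z • P ∨ g • P = -(z • P) := fun n P hn hP => by
    by_cases p0 : P = 0
    · exact .inl (by rw [p0, smul_zero, smul_zero])
    have k : P ∉ Kr v := fun e => p0 (Kr_tors hn e hP)
    obtain ⟨k0, k1⟩ := cong P k
    have t1 : n • z • P = 0 := by rw [smul_comm, hP, smul_zero]
    have t2 : n • g • P = 0 := by rw [← vm_smul gI, hP, smul_zero]
    have g0 : g • P ≠ 0 := mt (smul_eq_zero_iff_eq g).1 p0
    have k2 : z • P ∉ Kr v := fun e => k0 (Kr_tors hn e t1)
    have k3 : g • P ∉ Kr v := fun e => g0 (Kr_tors hn e t2)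
    have k4 := hg.2 _ (V_x k)
    rw [← xco_act] at k4
    generalize g • P = Q at *
    generalize z • P = R at *
    have k6 : v.V (xco Q - xco R) < 1 := by
      have := v.V.map_add_lt (v.V.map_sub_lt k4 k1) ((map_mul v.V _ _).trans_lt
        (mul_lt_one_of_lt_of_le c1 (V_x k2)))
      convert this using 2
      ring
    have k7 : v.V ((yco Q - yco R) * (yco Q - yco (-R))) < 1 := by
      rw [show (yco Q - yco R) * (yco Q - yco (-R)) = (xco Q - xco R) *
        (xco Q * xco Q + xco Q * xco R + xco R * xco R) by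
          rw [yco_neg k0]; linear_combination co_eq0 g0 - co_eq0 k0, map_mul]
      refine mul_lt_one_of_lt_of_le k6 (v.V.map_add_le (v.V.map_add_le ?_ ?_) ?_) <;>
        rw [map_mul] <;> exact mul_le_one' (V_x ‹_›) (V_x ‹_›)
    rw [map_mul] at k7
    by_cases k8 : v.V (yco Q - yco R) < 1
    · exact .inl (sub_eq_zero.1 (Kr_tors hn (Kr_near v2 k3 k2 k6 k8)
        (by rw [smul_sub, t1, t2, sub_zero])))
    · exact .inr (sub_eq_zero.1 (Kr_tors hn (Kr_near v2 k3 (mt neg_mem_iff.1 k2) (by rwa [xco_neg])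
        ((le_mul_of_one_le_left' (not_lt.1 k8)).trans_lt k7))
        (by rw [smul_sub, smul_neg, t1, t2, neg_zero, sub_zero])))
  refine (key n P hn hP).elim id fun e => ?_
  rcases key (n * 3) (P + T3) (by rw [map_mul, map_mul, hn, map_ofNat, V_three v2, one_mul])
    (by rw [smul_add, mul_smul n _ T3, three_T3, mul_comm, mul_smul, hP]; simp) with k | k
  · rw [smul_add, smul_add, H3.TA.smul_T3, z3] at k
    exact add_right_cancel k
  · rw [smul_add, smul_add, H3.TA.smul_T3, z3, e, neg_add, add_right_inj, eq_neg_iff_add_eq_zero,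
      ← two_smul O] at k
    exact absurd k (n_T3 (by decide))

theorem om_perm (hn : n ≠ 0) {β : Type} [CommMonoid β] (f : A → β) :
    ∏ S ∈ (En n).erase 0, f (om • S) = ∏ S ∈ (En n).erase 0, f S := by
  refine prod_bij' (fun S _ => om • S) (fun S _ => om ^ 2 • S) (fun S hS => ?_) (fun S hS => ?_)
    (fun S _ => ?_) (fun S _ => ?_) fun _ _ => rfl
  · rw [mem_erase, mem_En hn] at hS ⊢
    exact ⟨mt isUnit_om.smul_eq_zero.1 hS.1, by rw [smul_comm, hS.2, smul_zero]⟩
  · rw [mem_erase, mem_En hn] at hS ⊢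
    exact ⟨mt (isUnit_om.pow 2).smul_eq_zero.1 hS.1, by rw [smul_comm, hS.2, smul_zero]⟩
  · rw [smul_smul, show om ^ 2 * om = 1 by decide, one_smul]
  · rw [smul_smul, show om * om ^ 2 = 1 by decide, one_smul]

theorem prod_En_mul {a b : O} (ha : a ≠ 0) (hb : b ≠ 0) {β : Type} [CommMonoid β] (f : A → β) :
    ∃ r : A → A, (∀ S ∈ En a, b • r S = S) ∧
      ∏ S ∈ En (a * b), f S = ∏ S ∈ En a, ∏ S' ∈ En b, f (r S + S') := by
  have : ∀ S, ∃ R, S ∈ En a → b • R = S := fun S => by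
    by_cases h : S ∈ En a
    · obtain ⟨c, rfl⟩ := exists_eq_tq ha ((mem_En ha).1 h)
      exact ⟨tq c (b * a), fun _ => by
        rw [smul_tq _ _ (mul_ne_zero hb ha), tq_mul hb _ ha, tq_eq _ ha]⟩
    · exact ⟨0, fun k => absurd k h⟩
  choose r hr using this
  refine ⟨r, hr, ?_⟩
  rw [← prod_product']
  refine prod_bij' (fun S _ => (b • S, S - r (b • S))) (fun x _ => r x.1 + x.2) (fun S hS => ?_)
    (fun x hx => ?_) (fun S _ => add_sub_cancel _ _) (fun x hx => ?_)
    fun S _ => by rw [add_sub_cancel]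
  · have h1 : b • S ∈ En a := (mem_En ha).2 (by
      rw [smul_smul]; exact (mem_En (mul_ne_zero ha hb)).1 hS)
    exact mem_product.2 ⟨h1, (mem_En hb).2 (by rw [smul_sub, hr _ h1, sub_self])⟩
  · obtain ⟨h1, h2⟩ := mem_product.1 hx
    rw [mem_En (mul_ne_zero ha hb), mul_smul, smul_add, hr _ h1, (mem_En hb).1 h2, add_zero]
    exact (mem_En ha).1 h1
  · obtain ⟨h1, h2⟩ := mem_product.1 hx
    simp only [smul_add, hr _ h1, (mem_En hb).1 h2, add_zero, add_sub_cancel_left]

theorem En_w : En th = {0, T, -T} := by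
  ext P
  rw [mem_En (by decide), mem_insert, mem_insert, mem_singleton]
  refine ⟨fun h => ?_, ?_⟩
  · obtain ⟨b, rfl⟩ := exists_kT h
    rw [← kT_one, ← map_neg]
    rcases F3_cases b with rfl | rfl | rfl
    · exact .inl (map_zero _)
    · exact .inr (.inl rfl)
    · exact .inr (.inr rfl)
  · rintro (rfl | rfl | rfl) <;> simp [w_T]

theorem T_ne_neg : T ≠ -T := fun e =>
  smul_T_ne (n := 2) (by decide) (by rw [two_smul]; exact add_eq_zero_iff_eq_neg.2 e)

theorem prod_En_w {β : Type} [CommMonoid β] (f : A → β) :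
    ∏ S ∈ En th, f S = f 0 * f T * f (-T) := by
  rw [En_w, prod_insert, prod_pair T_ne_neg, mul_assoc]
  simp [T_ne.symm, T_ne]

end Pool.Agent.Lib.MP_696deb_nt.EW
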