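import Pool.Agent.Lib.MP_696deb_nt.EW.K3
import Pool.Agent.Lib.MP_696deb_nt.EW.K6

/-! The algebraic form of the vanishing of the central value. -/

set_option autoImplicit false

open scoped Classical Real
open Complex Finset

namespace Pool.Agent.Lib.MP_696deb_nt.CL

theorem exists_phi9 {n : ℕ} (hn : n ≠ 0) : ∃ (φ : O → O) (M : ℕ) (ν : O) (w : ℂ) (N : ℤ),
    M ∣ 9 * n ∧ (∀ p : ℕ, p ∈ n.primeFactors → n.factorization p % 3 ≠ 0 → (p : ℤ) ∣ N) ∧
    Gch N φ ∧ N ∣ 3 * n ∧ 0 < M ∧ Per M φ ∧ ν ≠ 0 ∧ w ≠ 0 ∧ SD M (fun α => toC (φ α)) ν w ∧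
    (¬ Wp n → w = -1) ∧
    ∀ (p : ℕ) [Fact p.Prime] (z : O) (ρ : O →+* ZMod p) (χ : MulChar (ZMod p) O), Qc p z ρ χ →
      ¬ p ∣ n → φ z = star (χ n) := by
  obtain ⟨v, hv⟩ : ∃ v : ℕ → ℕ, ∀ q, n.factorization q = v q := ⟨_, fun _ => rfl⟩
  obtain ⟨Q, hQd⟩ : ∃ Q, Q = (n.primeFactors.erase 3).filter fun q => v q % 3 ≠ 0 := ⟨_, rfl⟩
  have hP : ∀ q ∈ n.primeFactors.erase 3, q.Prime ∧ q ≠ 3 := fun q hq =>
    ⟨Nat.prime_of_mem_primeFactors (mem_of_mem_erase hq), ne_of_mem_erase hq⟩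
  have hs : Q ⊆ n.primeFactors.erase 3 := hQd ▸ filter_subset _ _
  have hX : ∀ q : ℕ, ∃ X, q ∈ Q → IsX q X := fun q => by
    by_cases h : q ∈ Q
    · exact (exists_X (hP q (hs h)).1 (hP q (hs h)).2).imp fun _ k _ => k
    · exact ⟨id, fun k => absurd k h⟩
  choose X hX using hX
  have hQ : ∀ q ∈ Q, q.Prime ∧ q ≠ 3 ∧ IsX q (X q) ∧ v q % 3 ≠ 0 := fun q h =>
    ⟨(hP q (hs h)).1, (hP q (hs h)).2, hX q h, by
      rw [hQd] at h
      exact (mem_filter.1 h).2⟩
  obtain ⟨K, hK⟩ : ∃ K, K = ∑ q ∈ Q, (v q : ZMod 3) * f8k q := ⟨_, rfl⟩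
  have hF := f8_fac hn
  simp only [hv] at hF
  have hw : (w3 (v 3) K * ∏ q ∈ Q, f8s q : ℤ) = w3 (v 3) K *
      (-1) ^ (n.primeFactors.filter fun p => p % 3 = 2 ∧ v p % 3 ≠ 0).card := by
    rw [f8_sgn Q fun q hq => f8_mod (hQ q hq).1 (hQ q hq).2.1, hQd]
    congr 3
    ext q
    simp only [mem_filter, mem_erase]
    constructor
    · exact fun h => ⟨h.1.1.2, h.2, h.1.2⟩
    · exact fun h => ⟨⟨⟨by omega, h.1⟩, h.2.2⟩, h.2.1⟩
  refine ⟨f8phi (v 3) K X v Q, _, nu (v 3) K, _, 3 * ∏ q ∈ Q, (q : ℤ),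
    Nat.mul_dvd_mul_left 9 ((prod_dvd_prod_of_subset _ _ _ (hs.trans (erase_subset _ _))).trans
      (Nat.prod_primeFactors_dvd n)), fun p p1 p2 => ?_,
    ⟨?_, f8phi_mul _ K hQ, ?_, ?_, fun α => ?_, fun p hp h α e => ?_, dvd_mul_right _ _,
      fun p hp h => ?_, fun α => ?_⟩, mul_dvd_mul_left _ ?_,
    Nat.mul_pos (by norm_num) (prod_pos fun q hq => (hQ q hq).1.pos), f8phi_per _ K hQ,
    (by decide : ∀ t K, nu t K ≠ 0) _ K, ?_, f8phi_sd _ K hQ, fun h => ?_,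
    fun p _ z ρ χ h hp => ?_⟩
  · by_cases h3 : p = 3
    · exact h3 ▸ dvd_mul_right _ _
    · exact (dvd_prod_of_mem _ (hQd ▸ mem_filter.2 ⟨mem_erase.2 ⟨h3, p1⟩, hv p ▸ p2⟩)).mul_left 3
  · have := ph3_nat (v 3) K (n := 1) (by norm_num)
    rw [Nat.cast_one, if_pos rfl] at this
    rw [f8phi, this, one_mul]
    exact prod_eq_one fun q h => by rw [(hX q h).one (hQ q h).1, star_one, one_pow]
  · rw [f8phi, ph3_om, prod_congr rfl fun q h => by
      rw [(hX q h).at_om, ← op_neg, neg_neg, f8_pow, ← f8k], f8_op, ← hK]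
    exact (by decide : ∀ K : ZMod 3, op (-(K + 1)) * op K * om = 1) _
  · rw [f8phi, ph3_neg_one, prod_eq_one fun q h => by
      rw [(hX q h).neg_one (hQ q h).1, star_one, one_pow], mul_one]
  · rw [f8phi, f8phi, star_mul', star_prod, ph3_conj,
      prod_congr rfl fun q h => by rw [(hX q h).conj, ← star_pow]]
  · by_cases h3 : p = 3
    · subst h3
      rw [f8phi, ph3_zero _ K e, zero_mul]
    · have hp' : Prime (p : ℤ) := Nat.prime_iff_prime_int.1 hp
      obtain ⟨q, hq, k⟩ := hp'.exists_mem_finset_dvd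
        ((hp'.dvd_or_dvd h).resolve_left (f8_ndvd hp Nat.prime_three h3))
      obtain rfl : p = q := by_contra fun c => f8_ndvd hp (hQ q hq).1 c k
      rw [f8phi, prod_eq_zero hq (by
        rw [(hX p hq).zero α e, star_zero, zero_pow fun c => (hQ p hq).2.2.2 (by rw [c])]),
        mul_zero]
  · rw [f8phi_nat _ K hQ hp (fun e => h (e ▸ dvd_mul_right _ _))
      fun e => h ((dvd_prod_of_mem _ e).mul_left 3), f8_qs, Int.cast_mul, Int.cast_natCast]
  · exact f8_bd (ph3_bd _ K α) (prod_induction _ (fun x : O => nm x ≤ 1) (fun _ _ => f8_bd)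
      (by decide) fun q h => (hX q h).bd α _)
  · rw [← Nat.cast_prod, Int.natCast_dvd_natCast]
    exact (prod_dvd_prod_of_subset _ _ _ (hs.trans (erase_subset _ _))).trans
      (Nat.prod_primeFactors_dvd n)
  · rw [hw, Ne, Int.cast_eq_zero]
    exact mul_ne_zero ((by decide : ∀ t K, w3 t K ≠ 0) _ K) (pow_ne_zero _ (by norm_num))
  · have e1 := f8R_prod _ v fun q hq => f8_mod (hP q hq).1 (hP q hq).2
    have e2 : n / 3 ^ v 3 = ∏ q ∈ n.primeFactors.erase 3, q ^ v q :=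
      Nat.div_eq_of_eq_mul_right (by positivity) hF
    have e3 : K = ∑ q ∈ n.primeFactors.erase 3, (v q : ZMod 3) * f8k q := by
      rw [hK, hQd]
      refine sum_filter_of_ne fun q _ c d => c ?_
      rw [(ZMod.natCast_eq_zero_iff _ 3).2 (Nat.dvd_of_mod_eq_zero d), zero_mul]
    have e4 : ∀ t : ZMod 3, (t = 1 ↔ t.val = 1) ∧ (t = 0 ↔ t.val = 0) := by decide
    rw [← e2, ← e3] at e1
    simp only [Wp, hv] at h
    rw [f8R_iff e1, ← ZMod.val_natCast (n := 3) (v 3), ← (e4 _).1, ← (e4 _).2] at h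
    rw [hw, w3]
    split_ifs with c
    · rw [(Nat.not_even_iff_odd.1 fun d => h (iff_of_true d c)).neg_one_pow]
      norm_num
    · rw [(by_contra fun d => h (iff_of_false d c) : Even _).neg_one_pow]
      norm_num
  · have hq : ∀ q ∈ n.primeFactors.erase 3, q ≠ p := fun q hq e =>
      hp (e ▸ Nat.dvd_of_mem_primeFactors (mem_of_mem_erase hq))
    have e1 : ∏ q ∈ Q, χ q ^ v q = ∏ q ∈ n.primeFactors.erase 3, χ q ^ v q := by
      rw [hQd]
      refine prod_filter_of_ne fun q k c d => c ?_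
      obtain ⟨j, hj⟩ := Nat.dvd_of_mod_eq_zero d
      rw [hj, pow_mul, h.cube _ fun r => hq q k ((Nat.prime_dvd_prime_iff_eq Fact.out
        (hP q k).1).1 ((ZMod.natCast_eq_zero_iff q p).1 r)).symm, one_pow]
    have e2 : χ n = χ 3 ^ v 3 * ∏ q ∈ Q, χ q ^ v q := by
      rw [e1]
      conv_lhs => rw [hF]
      simp only [Nat.cast_mul, Nat.cast_pow, Nat.cast_prod, map_mul, map_pow, map_prod,
        Nat.cast_ofNat]
    rw [e2, f8phi, ph3_prim _ K h.prim, h.three, f8_pow, star_mul', star_prod, op_neg]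
    congr 1
    exact prod_congr rfl fun q k => by
      rw [h.recip (hQ q k).1 (hQ q k).2.1 (hq q (hs k)) (hX q k), star_pow]

end Pool.Agent.Lib.MP_696deb_nt.CL

namespace Pool.Agent.Lib.MP_696deb_nt.EW

export Pool.Agent.Lib.MP_696deb_nt.CL (Per Gch Qc)

open EA (Es_add)
open H3.TA (zeta_cube)

/-- The logarithmic derivative of the elliptic unit with zeros at the points killed by `b`. -/
noncomputable def dl (b : O) (P : A) : Qbar := ∑ T ∈ (En b).erase 0, yh P / (xco P - xco T)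

theorem dl_om {b : O} (hb : b ≠ 0) (P : A) : dl b (om • P) = zeta 1 * dl b P := by
  have h1 := om_perm hb fun S => Multiplicative.ofAdd (yh (om • P) / (xco (om • P) - xco S))
  simp only [← ofAdd_sum, EmbeddingLike.apply_eq_iff_eq] at h1
  rw [dl, dl, ← h1, mul_sum]
  refine sum_congr rfl fun S _ => ?_
  rw [x_om, x_om, yh_om, ← mul_sub, div_mul_eq_div_div_swap, div_eq_inv_mul,
    inv_eq_of_mul_eq_one_right (show zeta 1 ^ 2 * zeta 1 = 1 by
      rw [← pow_succ, zeta_cube])]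

theorem dl_neg (b : O) (P : A) : dl b (-P) = -dl b P := by
  simp only [dl, co_neg, xco_neg, neg_div, sum_neg_distrib]

theorem IsRep.sum_mul {β : Type} [AddCommMonoid β] {n c : O} {R R' : Finset O} (h : IsRep n R)
    (h' : IsRep n R') (hc : IsCoprime c n) {F : O → β} (per : ∀ a γ, F (a + n * γ) = F a) :
    ∑ a ∈ R, F (c * a) = ∑ a ∈ R', F a := by
  choose r hr k using h'.ex
  refine sum_nbij (fun a => r (c * a)) (fun a _ => hr _) (fun a ha a' ha' e => h.uq a ha a' ha' ?_)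
    (fun a ha => ?_) fun a _ => ?_
  · have := dvd_sub (k (c * a)) (k (c * a'))
    rw [show r (c * a) = r (c * a') from e, sub_sub_sub_cancel_right, ← mul_sub] at this
    exact hc.symm.dvd_of_dvd_mul_left this
  · obtain ⟨s, t, e⟩ := hc
    obtain ⟨x, hx, k2⟩ := h.ex (s * a)
    refine ⟨x, hx, h'.uq _ (hr _) _ ha ?_⟩
    have := ((k (c * x)).add (k2.mul_left c)).add (dvd_mul_right n (t * a))
    rw [dvd_sub_comm]
    convert this using 1
    linear_combination -a * e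
  · obtain ⟨γ, e⟩ := k (c * a)
    rw [← per (r _) γ, ← e, add_sub_cancel]

theorem isRep_box {m : ℕ} (hm : 0 < m) :
    IsRep m ((range m ×ˢ range m).image fun p : ℕ × ℕ => (⟨p.1, p.2⟩ : O)) := by
  have m0 : (0 : ℤ) < m := by exact_mod_cast hm
  refine ⟨Nat.cast_ne_zero.2 hm.ne', fun a => ⟨⟨(a.re % m).toNat, (a.im % m).toNat⟩,
    mem_image.2 ⟨(_, _), ?_, rfl⟩, ?_⟩, fun r hr r' hr' e => ?_⟩
  · exact mem_product.2 ⟨mem_range.2 ((Int.toNat_lt' hm).2 (Int.emod_lt_of_pos _ m0)),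
      mem_range.2 ((Int.toNat_lt' hm).2 (Int.emod_lt_of_pos _ m0))⟩
  · rw [CL.nat_dvd]
    simp only [QuadraticAlgebra.re_sub, QuadraticAlgebra.im_sub, Int.toNat_of_nonneg (Int.emod_nonneg _ m0.ne')]
    exact ⟨Int.dvd_self_sub_emod, Int.dvd_self_sub_emod⟩
  · obtain ⟨p, hp, rfl⟩ := mem_image.1 hr
    obtain ⟨q, hq, rfl⟩ := mem_image.1 hr'
    simp only [mem_product, mem_range] at hp hq
    rw [CL.nat_dvd] at e
    have k : ∀ x y : ℕ, x < m → y < m → (m : ℤ) ∣ x - y → (x : ℤ) = y := fun x y hx hy e =>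
      sub_eq_zero.1 (Int.eq_zero_of_abs_lt_dvd e (abs_lt.2 ⟨by omega, by omega⟩))
    exact QuadraticAlgebra.ext (k _ _ hp.1 hq.1 e.1) (k _ _ hp.2 hq.2 e.2)

theorem phi_zero {M : ℤ} {φ : O → O} (h : Gch M φ) {a : O} (ha : (3 : ℤ) ∣ nm a) : φ a = 0 :=
  h.zero 3 Nat.prime_three h.three a ha

section
variable {M : ℤ} {φ : O → O} (h1 : Gch M φ) {m : ℕ} (hm : 0 < m) (per : Per m φ)
  (h : ES m (fun α => toC (star (φ α))) = 0) {R : Finset O} (hR : IsRep m R)
include h1 per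

theorem phi_dvd {a : O} (ha : (m : O) ∣ a) : φ a = 0 := by
  obtain ⟨γ, rfl⟩ := ha
  rw [← zero_add (_ * γ), per, phi_zero h1 (by decide)]

theorem phi_ne {c : O} (hc : IsCoprime c m) : φ c ≠ 0 := fun e => by
  obtain ⟨s, t, k⟩ := hc
  have := per (s * c) t
  rw [mul_comm _ t, k, h1.one, h1.mul, e, mul_zero] at this
  exact one_ne_zero this

include hm h hR

theorem sum_Es {c : O} (hc : IsCoprime c m) :
    ∑ a ∈ R, toC (star (φ a)) * Es LG (Om * toC (c * a) / toC m) = 0 := by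
  have k := hR.sum_mul (isRep_box hm) hc
    (F := fun a => toC (star (φ a)) * Es LG (Om * toC a / toC m)) fun a γ => by
      by_cases e : (m : O) ∣ a
      · simp [per a γ, phi_dvd h1 per e]
      · rw [per, ← Es_add (mt (div_mem_LG hR.ne).1 e) (mem_LG.2 ⟨γ, rfl⟩), map_add, map_mul, mul_add,
          add_div, mul_left_comm, mul_div_cancel_left₀ _ (coe_ne hR.ne)]
  rw [sum_image fun p _ q _ e => by simpa [Prod.ext_iff] using e, sum_product, map_natCast] at k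
  refine mul_left_cancel₀ (coe_ne (star_ne_zero.2 (phi_ne h1 per hc))) ?_
  rw [mul_zero, ← h, ES, ← k, mul_sum]
  refine sum_congr rfl fun a _ => ?_
  rw [h1.mul, star_mul', map_mul _ (star _), mul_assoc, map_natCast]

theorem sum_dl {b c : O} (hb : IsCoprime b m) (hc : IsCoprime c m) :
    ∑ a ∈ R, io (star (φ a)) * dl b (a • tq c m) = 0 := by
  have b0 : b ≠ 0 := fun e => phi_ne h1 per hb (phi_zero h1 (by rw [e]; decide))
  refine jc.injective ?_
  rw [map_zero, map_sum, sum_congr rfl (g := fun a =>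
    toC b * (toC (star (φ a)) * Es LG (Om * toC (b * c * a) / toC m)) -
      nm b * (toC (star (φ a)) * Es LG (Om * toC (c * a) / toC m))) fun a _ => ?_,
    sum_sub_distrib, ← mul_sum, ← mul_sum, sum_Es h1 hm per h hR (hb.mul_left hc),
    sum_Es h1 hm per h hR hc, mul_zero, mul_zero, sub_zero]
  by_cases e : (m : O) ∣ a
  · simp [phi_dvd h1 per e]
  rw [map_mul, jc_io, smul_tq _ _ hR.ne, dl, ← dlog_alg b0 (cp_tq _ hR.ne) (by
    rw [smul_tq _ _ hR.ne, Ne, tq_eq_zero hR.ne]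
    exact fun k => e (hc.symm.dvd_of_dvd_mul_right (hb.symm.dvd_of_dvd_mul_left k)))]
  simp only [map_mul]
  ring_nf

theorem sum_prim (h4 : 3 ∣ m) {b c : O} (hb : IsCoprime b m) (hc : IsCoprime c m) :
    ∑ a ∈ R with Prim a, io (star (φ a)) * dl b (a • tq c m) = 0 := by
  have b0 : b ≠ 0 := fun e => phi_ne h1 per hb (phi_zero h1 (by rw [e]; decide))
  have k := sum_dl h1 hm per h hR hb hc
  have p1 : ∀ a γ : O, (a + m * γ) • tq c m = a • tq c m := fun a γ => by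
    rw [add_smul, smul_tq (_ * _) _ hR.ne, (tq_eq_zero hR.ne).2 ⟨γ * c, mul_assoc _ _ _⟩, add_zero]
  have p2 : φ om = om ^ 2 := mul_right_cancel₀ isUnit_om.ne_zero (h1.unit.trans (by decide))
  generalize ht : (fun a : O => io (star (φ a)) * dl b (a • tq c m)) = t at k ⊢
  have t1 : ∀ a, t (om * a) = t a := fun a => by
    simp only [← ht, mul_smul, dl_om b0, h1.mul, p2, star_mul', map_mul]
    rw [show star (om ^ 2) = om by decide, io_om]
    linear_combination io (star (φ a)) * dl b (a • tq c m) * zeta_cube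
  have t0 : ∀ a, t (-1 * a) = t a := fun a => by
    simp only [← ht, mul_smul, neg_smul, one_smul, dl_neg, h1.mul, h1.neg, star_mul', map_mul,
      star_neg, star_one, map_neg, map_one]
    ring
  have t2 := fun u (hu : IsUnit u) => hR.sum_mul hR (F := fun a => if Prim a then t a else 0)
    (c := u) (by
      obtain ⟨u, rfl⟩ := hu
      exact ⟨↑u⁻¹, 0, by simp⟩) fun a γ => by
      obtain ⟨n, rfl⟩ := h4
      simp only [← ht, per a γ, p1]
      refine if_congr ?_ rfl rfl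
      simp only [CL.Prim, QuadraticAlgebra.re_add, QuadraticAlgebra.im_add,
        QuadraticAlgebra.re_mul, QuadraticAlgebra.im_mul, QuadraticAlgebra.re_natCast,
        QuadraticAlgebra.im_natCast, Nat.cast_mul 3 n (α := ℤ), mul_assoc, Nat.cast_ofNat]
      simp
  have u1 : IsUnit (-1 : O) := isUnit_one.neg
  refine mul_left_cancel₀ (by norm_num : (6 : Qbar) ≠ 0) ?_
  rw [mul_zero, ← k, sum_filter, show ∀ x : Qbar, 6 * x = x + x + x + x + x + x from
    fun x => by ring]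
  nth_rw 1 [← t2 _ isUnit_om, ← t2 _ (isUnit_om.mul isUnit_om), ← t2 _ u1,
    ← t2 _ (u1.mul isUnit_om), ← t2 _ (u1.mul (isUnit_om.mul isUnit_om))]
  simp only [← sum_add_distrib, mul_assoc, t1, t0]
  refine sum_congr rfl fun a _ => ?_
  by_cases e : (3 : ℤ) ∣ nm a
  · simp [← ht, phi_zero h1 e]
  rw [CL.three_dvd_nm] at e
  have q : ∀ x : O, om * x = ⟨-x.im, x.re - x.im⟩ := fun x => by
    ext <;> simp [CU.om, sub_eq_add_neg]
  have q' : ∀ x : O, -1 * x = ⟨-x.re, -x.im⟩ := fun x => by rw [neg_one_mul]; rfl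
  have h5 : a.re % 3 = 0 ∨ a.re % 3 = 1 ∨ a.re % 3 = 2 := by omega
  by_cases e0 : Prim a <;> simp only [e0, if_true, if_false] <;>
    simp only [q, q', CL.Prim] at e0 ⊢ <;> split_ifs <;> rcases h5 with _ | _ | _ <;>
    first | omega | simp only [add_zero, zero_add]

end

/-- The Hecke character of the curve and the consequence of the vanishing of the central value. -/
theorem final {n : ℕ} (hn : n ≠ 0 ∧ ∀ q : ℕ, n.factorization q < 3) : ∃ φ : O → O,
    Gch (3 * n) φ ∧ Per (9 * n) φ ∧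
    (∀ (p : ℕ) [Fact p.Prime] (z : O) (ρ : O →+* ZMod p) (χ : MulChar (ZMod p) O), Qc p z ρ χ →
      ¬ p ∣ n → φ z = star (χ n)) ∧
    ∀ F : ℂ → ℂ, Differentiable ℂ F →
      (∀ s : ℂ, (3 : ℝ) / 2 < s.re → HasProd (fun p : ℕ =>
        if p.Prime ∧ ¬ ((p : ℤ) ∣ 2 * (-4 * 0 ^ 3 - 27 * (-432 * (n : ℤ) ^ 2) ^ 2)) then
          (1 - ((p : ℂ) - (cnt n p : ℂ)) * (p : ℂ) ^ (-s) + (p : ℂ) ^ (1 - 2 * s))⁻¹ else 1)
        (F s)) → F 1 = 0 → ∀ m : ℕ, 0 < m → 9 * n ∣ m → ∀ (b c : O) (R : Finset O),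
      IsCoprime b m → IsCoprime c m → IsRep m R →
      ∑ a ∈ R with Prim a, io (star (φ a)) * dl b (a • tq c m) = 0 := by
  obtain ⟨φ, M, ν, w, N, h0, g1, h1, g2, h2, h3, h4, h5, h6, h7, h8⟩ := CL.exists_phi9 hn.1
  refine ⟨φ, ⟨h1.one, h1.mul, h1.unit, h1.neg, h1.conj, fun p hp k => h1.zero p hp ?_,
    dvd_mul_right _ _, fun p hp k => h1.int p hp fun e => k (e.trans g2), h1.bd⟩,
    CL.f8_per h3 h0, h8, fun F hF hp hz m hm k b c R hb hc hR => ?_⟩
  · rcases (Nat.prime_iff_prime_int.1 hp).dvd_or_dvd k with e | e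
    · exact e.trans h1.three
    · have e1 := Int.natCast_dvd_natCast.1 e
      have e2 := hp.factorization_pos_of_dvd hn.1 e1
      have e3 := hn.2 p
      exact g1 p (Nat.mem_primeFactors.2 ⟨hp, e1, hn.1⟩) (by omega)
  have per := CL.f8_per h3 (h0.trans k)
  exact sum_prim h1 hm per (value_of hn.1 h1 g2 h2 h3 h4 h5 h6 h8 hF hp hz hm per) hR
    (((by decide : 3 ∣ 9).mul_right _).trans k) hb hc

end Pool.Agent.Lib.MP_696deb_nt.EW
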