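import Pool.Agent.Lib.MP_696deb_nt.EW.K8

/-! The elliptic units attached to an Eisenstein integer, their norm and symmetry relations. -/

set_option autoImplicit false

open scoped Classical
open Finset WeierstrassCurve.Affine

namespace Pool.Agent.Lib.MP_696deb_nt.EW

open CL (nm_mul nm_star nm_nonneg mul_star_self)
open CU (om_smul om_cube th_sq kT_one smul_kT th_kT exists_kT F3_cases)
open H3.TA (zeta_cube)

/-- The elliptic unit function with value one at the points of order `th`. -/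
noncomputable def u0 (b : O) (P : A) : Qbar := ∏ S ∈ (En b).erase 0, (1 - xco P / xco S)

/-- The elliptic unit function with exact norm relations. -/
noncomputable def ub (b : O) (P : A) : Qbar := u0 b P ^ 2 / u0 b T3 ^ 3

variable {P Q S : A} {a b c n : O}

theorem cop_w (h : red n ≠ 0) : IsCoprime th n :=
  th_prime.irreducible.coprime_iff_not_dvd.2 (mt w_dvd_iff.1 h)

theorem cop_three (h : red n ≠ 0) : IsCoprime 3 n := by
  have := (cop_w h).pow_left (m := 2)
  rwa [th_sq, IsCoprime.neg_left_iff] at this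

theorem cop_smul (h : IsCoprime c n) (h1 : n • S = 0) (h2 : c • S = 0) : S = 0 := by
  obtain ⟨s, t, e⟩ := h
  rw [← one_smul O S, ← e, add_smul, mul_smul, mul_smul, h1, h2, smul_zero, smul_zero, add_zero]

theorem mem_En0 (hn : n ≠ 0) : S ∈ (En n).erase 0 ↔ S ≠ 0 ∧ n • S = 0 := by
  rw [mem_erase, mem_En hn]

theorem Xb_ne (hb : red b ≠ 0) (h : S ∈ (En b).erase 0) : xco S ≠ 0 := by
  obtain ⟨h0, h1⟩ := (mem_En0 (ne_of_red hb)).1 h
  exact x_ne fun e => h0 (cop_smul (cop_w hb) h1 e)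

theorem card_En0 (hb : b ≠ 0) : (nm b).natAbs = ((En b).erase 0).card + 1 := by
  rw [← card_En hb, Int.natAbs_natCast, card_erase_add_one (zero_mem_En hb)]

theorem En_perm (hb : b ≠ 0) (φ : A →+ A) (h1 : ∀ S, b • S = 0 → b • φ S = 0)
    (h2 : ∀ S, b • S = 0 → φ S = 0 → S = 0) {β : Type} [CommMonoid β] (f : A → β) :
    ∏ S ∈ (En b).erase 0, f (φ S) = ∏ S ∈ (En b).erase 0, f S := by
  have m : ∀ S ∈ (En b).erase 0, φ S ∈ (En b).erase 0 := fun S hS => by
    rw [mem_En0 hb] at hS ⊢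
    exact ⟨mt (h2 S hS.2) hS.1, h1 S hS.2⟩
  have inj : Set.InjOn φ ((En b).erase 0 : Finset A) := fun S hS S' hS' e =>
    sub_eq_zero.1 (h2 _ (by
      rw [smul_sub, ((mem_En0 hb).1 hS).2, ((mem_En0 hb).1 hS').2, sub_zero])
      (by rw [map_sub, e, sub_self]))
  exact prod_nbij _ m inj (surjOn_of_injOn_of_card_le _ m inj le_rfl) fun _ _ => rfl

theorem En_smul (hb : b ≠ 0) (hc : IsCoprime c b) {β : Type} [CommMonoid β] (f : A → β) :
    ∏ S ∈ (En b).erase 0, f (c • S) = ∏ S ∈ (En b).erase 0, f S :=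
  En_perm hb (DistribSMul.toAddMonoidHom A c)
    (fun S h => by rw [DistribSMul.toAddMonoidHom_apply, smul_comm, h, smul_zero])
    (fun _ => cop_smul hc) f

theorem En_neg (hb : b ≠ 0) {β : Type} [CommMonoid β] (f : A → β) :
    ∏ S ∈ (En b).erase 0, f (-S) = ∏ S ∈ (En b).erase 0, f S := by
  simpa only [neg_smul, one_smul] using En_smul hb (c := -1) isCoprime_one_left.neg_left f

theorem En_gal (hb : b ≠ 0) {g : Gam} (hg : g ∈ GK 3) {β : Type} [CommMonoid β] (f : A → β) :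
    ∏ S ∈ (En b).erase 0, f (g • S) = ∏ S ∈ (En b).erase 0, f S :=
  En_perm hb (DistribSMul.toAddMonoidHom A g)
    (fun S h => by rw [DistribSMul.toAddMonoidHom_apply, ← vm_smul hg, h, smul_zero])
    (fun _ _ => (smul_eq_zero_iff_eq g).1) f

theorem zeta_ne : zeta 1 ≠ 0 := H3.TA.tae_ne zeta_cube

theorem u0_om (hb : b ≠ 0) (P : A) : u0 b (om • P) = u0 b P := by
  rw [u0, u0, ← om_perm hb]
  simp only [x_om, mul_div_mul_left _ _ (pow_ne_zero 2 zeta_ne)]

theorem u0_neg (b : O) (P : A) : u0 b (-P) = u0 b P := by rw [u0, u0, xco_neg]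

theorem u0_vm (hb : b ≠ 0) {g : Gam} (hg : g ∈ GK 3) (P : A) : u0 b (g • P) = g (u0 b P) := by
  rw [u0, u0, map_prod, ← En_gal hb hg]
  simp [xco_act]

theorem u0_of_w (b : O) (h : th • P = 0) : u0 b P = 1 := by simp [u0, x_zero h]

theorem u0_T (b : O) : u0 b T = 1 := u0_of_w b w_T

theorem u0_ne (hb : red b ≠ 0) (h : b • P ≠ 0) : u0 b P ≠ 0 :=
  prod_ne_zero_iff.2 fun S hS e => by
    rw [sub_eq_zero, eq_comm, div_eq_one_iff_eq (Xb_ne hb hS)] at e
    obtain ⟨h0, h1⟩ := (mem_En0 (ne_of_red hb)).1 hS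
    rcases x_eq (fun k => h (by rw [k, smul_zero])) h0 e with rfl | rfl <;> simp [h1] at h

theorem u0_T3 (hb : b ≠ 0) (h : th • P = T ∨ th • P = -T) : u0 b P = u0 b T3 := by
  have k : ∀ P : A, th • P = T → u0 b P = u0 b T3 := fun P h => by
    obtain ⟨a, e⟩ := exists_kT (P := T3 - P) (by rw [smul_sub, h, th_T3, sub_self])
    rw [show P = CU.un a • T3 by rw [CU.un_T3, ← e, sub_sub_cancel], CU.un]
    induction a.val with
    | zero => rw [pow_zero, one_smul]
    | succ j ih => rw [pow_succ', mul_smul, u0_om hb, ih]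
  rcases h with h | h
  · exact k P h
  · rw [← u0_neg, k _ (by rw [smul_neg, h, neg_neg])]

theorem u0_nT3 (hb : b ≠ 0) (h : red n ≠ 0) : u0 b (n • T3) = u0 b T3 :=
  u0_T3 hb (by rw [smul_comm, th_T3]; exact smul_T h)

theorem ub_ne (hb : red b ≠ 0) (h : b • P ≠ 0) : ub b P ≠ 0 :=
  div_ne_zero (pow_ne_zero 2 (u0_ne hb h)) (pow_ne_zero 3 (u0_ne hb (n_T3 hb)))

theorem ub_om (hb : b ≠ 0) (P : A) : ub b (om • P) = ub b P := by rw [ub, ub, u0_om hb]

theorem ub_neg (b : O) (P : A) : ub b (-P) = ub b P := by rw [ub, ub, u0_neg]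

theorem ub_vm (hb : b ≠ 0) {g : Gam} (hg : g ∈ GK 3) (P : A) : ub b (g • P) = g (ub b P) := by
  rw [ub, ub, map_div₀, map_pow, map_pow, ← u0_vm hb hg, ← u0_vm hb hg, H3.TA.smul_T3]

theorem u0_const (hb : red b ≠ 0) (n0 : n ≠ 0) (hn : IsCoprime n b) : ∃ κ : Qbar, ∀ P : A,
    n • P ≠ 0 → ∏ S ∈ En n, u0 b (P + S) = κ * u0 b (n • P) := by
  have b0 := ne_of_red hb
  refine ⟨∏ R ∈ (En b).erase 0, (-(xco R)⁻¹) ^ (En n).card *
    (io n ^ 2 * (∏ S ∈ (En n).erase 0, (xco S - xco R)) * -xco (n • R)), fun P hP => ?_⟩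
  rw [u0, ← En_smul b0 hn fun R => 1 - xco (n • P) / xco R, ← prod_mul_distrib]
  refine prod_comm.trans (prod_congr rfl fun R hR => ?_)
  obtain ⟨r0, r1⟩ := (mem_En0 b0).1 hR
  have h1 : n • R ≠ 0 := fun e => r0 (cop_smul hn r1 e)
  have h2 := x_dist n0 hP h1
  have h3 := Xb_ne hb hR
  have h4 := Xb_ne hb ((mem_En0 b0).2 ⟨h1, by rw [smul_comm, r1, smul_zero]⟩)
  rw [prod_congr rfl fun S _ => show 1 - xco (P + S) / xco R = -(xco R)⁻¹ * (xco (P + S) - xco R) by
    field_simp; ring, prod_mul_distrib, h2, prod_const]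
  field_simp
  ring

theorem u0_w (hb : red b ≠ 0) (h : th • P ≠ 0) :
    u0 b P * u0 b (P + T) * u0 b (P - T) = u0 b T3 ^ 3 * u0 b (th • P) := by
  have b0 := ne_of_red hb
  obtain ⟨κ, k⟩ := u0_const hb th_prime.ne_zero (cop_w hb)
  simp only [prod_En_w, add_zero, ← sub_eq_add_neg] at k
  have h1 := k T3 T_ne
  rw [th_T3, u0_T, mul_one, u0_T3 b0 (P := T3 + T) (.inl (by rw [smul_add, th_T3, w_T, add_zero])),
    u0_T3 b0 (P := T3 - T) (.inl (by rw [smul_sub, th_T3, w_T, sub_zero]))] at h1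
  rw [k P h, ← h1]
  ring

/-- The norm relation at the prime above three. -/
theorem ub_w (hb : red b ≠ 0) (h : th • P ≠ 0) :
    ub b P * ub b (P + T) * ub b (P - T) = ub b (th • P) := by
  have := u0_ne hb (n_T3 hb)
  rw [ub, ub, ub, ub, div_mul_div_comm, div_mul_div_comm, ← mul_pow, ← mul_pow, u0_w hb h]
  field_simp

theorem ub_odd (hb : red b ≠ 0) (h : red n ≠ 0) (hn : IsCoprime n b) (hP : n • P ≠ 0) :
    ∏ S ∈ En n, ub b (P + S) = ub b (n • P) := by
  have n0 := ne_of_red h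
  obtain ⟨κ, k⟩ := u0_const hb n0 hn
  have a1 := k T (smul_T_ne h)
  have a3 := k (-T) (by rw [smul_neg]; exact neg_ne_zero.2 (smul_T_ne h))
  have cop : ∀ {c : O}, IsCoprime c n → ∀ S ∈ (En n).erase 0, c • S ≠ 0 := fun hc S hS e =>
    ne_of_mem_erase hS (cop_smul hc ((mem_En0 n0).1 hS).2 e)
  have a2 := prod_congr rfl fun S hS => u0_w hb (cop (cop_w h) S hS)
  rw [← mul_prod_erase _ _ (zero_mem_En n0), add_zero, u0_of_w b (by simp [w_T]),
    u0_of_w b (by simp [smul_comm th n, w_T]), one_mul, mul_one] at a1 a3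
  simp only [add_comm T, neg_add_eq_sub] at a1 a3
  rw [prod_mul_distrib, prod_mul_distrib, prod_mul_distrib, a1, a3, En_smul n0 (cop_w h),
    prod_const, mul_assoc, mul_comm] at a2
  have a4 := mul_right_cancel₀ (prod_ne_zero_iff.2 fun S hS => u0_ne hb (cop hn.symm S hS)) a2
  have := u0_ne hb (n_T3 hb)
  simp only [ub, prod_div_distrib, prod_pow, k P hP, prod_const]
  rw [mul_pow, sq κ, a4, ← card_erase_add_one (zero_mem_En n0), pow_succ _ (card _)]
  field_simp
  ring

/-- The norm relation. -/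
theorem ub_norm (hb : red b ≠ 0) (hn : IsCoprime n b) (hP : n • P ≠ 0) :
    ∏ S ∈ En n, ub b (P + S) = ub b (n • P) := by
  induction hN : (nm n).natAbs using Nat.strong_induction_on generalizing n P with
  | _ N ih =>
    by_cases e : red n = 0
    · obtain ⟨m, rfl⟩ := w_dvd e
      rw [mul_comm] at *
      have m0 : m ≠ 0 := fun k => hP (by rw [k, zero_mul, zero_smul])
      obtain ⟨r, hr, k⟩ := prod_En_mul m0 th_prime.ne_zero fun S => ub b (P + S)
      rw [mul_smul] at hP ⊢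
      rw [k, ← ih _ ?_ hn.of_mul_left_left hP rfl]
      · refine prod_congr rfl fun S hS => ?_
        rw [prod_En_w, add_zero, ← add_assoc, ← add_assoc, ← sub_eq_add_neg, ub_w hb, smul_add,
          hr S hS]
        rw [smul_add, hr S hS]
        simpa using ne_of_smul m0 (c := 1) (by rwa [one_smul]) hS
      · have := Int.natAbs_pos.2 (nm_pos m0).ne'
        rw [← hN, nm_mul, Int.natAbs_mul, show (nm th).natAbs = 3 from rfl]
        omega
    · exact ub_odd hb e hn hP

theorem prod_three {α β : Type} [CommMonoid β] {φ : α → α} (h3 : ∀ x, φ (φ (φ x)) = x)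
    {f : α → β} (s : Finset α) (h1 : ∀ x ∈ s, φ x ∈ s) (h2 : ∀ x ∈ s, φ x ≠ x)
    (h : ∀ x ∈ s, f x * f (φ x) * f (φ (φ x)) = 1) : ∏ x ∈ s, f x = 1 := by
  induction s using Finset.strongInduction with
  | H s ih =>
    rcases s.eq_empty_or_nonempty with rfl | ⟨x, hx⟩
    · exact prod_empty
    have a1 := h1 x hx
    have a2 := h1 _ a1
    have sub : {x, φ x, φ (φ x)} ⊆ s := by simp [insert_subset_iff, hx, a1, a2]
    rw [← prod_sdiff sub, ih _ (sdiff_ssubset sub (insert_nonempty _ _)) (fun y hy => ?_)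
      (fun y hy => h2 y (mem_sdiff.1 hy).1) fun y hy => h y (mem_sdiff.1 hy).1, one_mul,
      prod_insert, prod_pair (h2 _ a1).symm, ← mul_assoc, h x hx]
    · have := h2 _ a2
      rw [h3] at this
      simp [(h2 x hx).symm, this]
    · obtain ⟨y1, y2⟩ := mem_sdiff.1 hy
      refine mem_sdiff.2 ⟨h1 y y1, fun k => y2 ?_⟩
      simp only [mem_insert, mem_singleton] at k ⊢
      rcases k with k | k | k <;> rw [← h3 y, k] <;> simp [h3]

theorem om_T3 : om • T3 = T3 - T := by rw [← kT_one, ← CU.un_T3]; rfl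

theorem om_T : om • T = T := th_iff.1 w_T

/-- The product of the first coordinates of the division points. -/
theorem x_prod (h : n • T3 = T3) :
    io n ^ 2 * ∏ S ∈ (En n).erase 0, xco S = 3 ^ ((En n).erase 0).card := by
  have hr : red n ≠ 0 := fun e => by
    obtain ⟨m, rfl⟩ := w_dvd e
    refine T_ne ?_
    rw [← th_T3, ← h, smul_smul, ← mul_assoc, mul_comm, mul_smul, ← sq, w_T3.1, smul_zero]
  have n0 := ne_of_red hr
  have a := x_norm hr (n_T3 hr)
  have b := prod_three (φ := fun S : A => om • S) (fun S => by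
    rw [smul_smul, smul_smul, show om * om * om = 1 by decide, one_smul])
    (f := fun S => xco (T3 + S) / 3) ((En n).erase 0) (fun S hS => by
      rw [mem_En0 n0] at hS ⊢
      exact ⟨mt isUnit_om.smul_eq_zero.1 hS.1, by rw [smul_comm, hS.2, smul_zero]⟩)
    (fun S hS e => Xb_ne hr hS (x_zero (th_iff.2 e))) fun S hS => by
      have e1 : T3 + om • S = om • (T3 + S + T) := by
        rw [smul_add, smul_add, om_T3, om_T]
        abel
      have e2 : T3 + om • om • S = om • om • (T3 + S - T) := by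
        have : T + T + T = 0 := by rw [← CU.three_T]; abel
        simp only [smul_add, smul_sub, om_T3, om_T]
        rw [← sub_eq_zero, ← this]
        abel
      have e3 := x_three (ne_of_smul n0 (wn_T3 hr) (mem_of_mem_erase hS))
      rw [e1, e2, x_om, x_om, x_om]
      linear_combination (zeta 1 ^ 6 / 27) * e3 + (zeta 1 ^ 3 + 1) * zeta_cube
  rw [prod_div_distrib, prod_const, div_eq_one_iff_eq (pow_ne_zero _ three_ne_zero)] at b
  rw [h, ← mul_prod_erase _ _ (zero_mem_En n0), add_zero, b, x_T3, mul_comm] at a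
  exact (mul_right_cancel₀ three_ne_zero a).symm

theorem u0_mul (ha : red a ≠ 0) (hb : red b ≠ 0) (hP : b • P ≠ 0) :
    u0 (a * b) P = u0 a (b • P) * u0 b P ^ (nm a).natAbs := by
  have a0 := ne_of_red ha
  have b0 := ne_of_red hb
  have hc : red (a * b) ≠ 0 := by rw [map_mul]; exact mul_ne_zero ha hb
  have e : ∀ {c : O}, c ≠ 0 → u0 c P = ∏ S ∈ En c, (1 - xco P / xco S) := fun hc => by
    rw [← mul_prod_erase _ _ (zero_mem_En hc), xco_zero, div_zero, sub_zero, one_mul, u0]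
  obtain ⟨t, ht, k⟩ := prod_En_mul a0 b0 fun S => 1 - xco P / xco S
  rw [e (mul_ne_zero a0 b0), k, ← mul_prod_erase _ _ (zero_mem_En a0), card_En0 a0, pow_succ,
    ← mul_assoc, ← prod_const, u0, ← prod_mul_distrib, mul_comm]
  refine congrArg₂ _ (prod_congr rfl fun R hR => ?_) ?_
  · obtain ⟨r0, r1⟩ := (mem_En0 a0).1 hR
    have t1 := ht R (mem_of_mem_erase hR)
    have h1 : b • t R ≠ 0 := t1.symm ▸ r0
    have h2 := x_dist b0 h1 hP
    have h3 := x_norm hb h1
    rw [t1] at h2 h3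
    have h4 := Xb_ne ha hR
    have h5 := io_ne b0
    have h6 : ∀ S ∈ (En b).erase 0, xco S ≠ 0 := fun S hS => Xb_ne hb hS
    have h7 := prod_ne_zero_iff.2 h6
    have h8 : ∀ S ∈ En b, xco (t R + S) ≠ 0 := prod_ne_zero_iff.1 (by rw [h3]; positivity)
    rw [prod_congr rfl fun S hS => one_sub_div (h8 S hS), prod_div_distrib, h2, h3,
      u0, prod_congr rfl fun S hS => one_sub_div (h6 S hS), prod_div_distrib]
    field_simp
  · have t1 := ht 0 (zero_mem_En a0)
    rw [e b0]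
    refine prod_nbij' (fun S => t 0 + S) (fun S => S - t 0) (fun S hS => ?_) (fun S hS => ?_)
      (fun S _ => add_sub_cancel_left _ _) (fun S _ => add_sub_cancel _ _) fun _ _ => rfl
    · rw [mem_En b0] at hS ⊢
      rw [smul_add, t1, hS, add_zero]
    · rw [mem_En b0] at hS ⊢
      rw [smul_sub, t1, hS, sub_zero]

theorem ub_mul (ha : red a ≠ 0) (hb : red b ≠ 0) (hP : b • P ≠ 0) :
    ub (a * b) P = ub a (b • P) * ub b P ^ (nm a).natAbs := by
  rw [ub, ub, ub, u0_mul ha hb hP, u0_mul ha hb (n_T3 hb), u0_nT3 (ne_of_red ha) hb,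
    div_pow, div_mul_div_comm, mul_pow, mul_pow, pow_right_comm _ _ 2, pow_right_comm _ _ 3]

/-- The symmetry relation. -/
theorem ub_symm (ha : red a ≠ 0) (hb : red b ≠ 0) (h1 : a • P ≠ 0) (h2 : b • P ≠ 0) :
    ub a (b • P) * ub b P ^ (nm a).natAbs = ub b (a • P) * ub a P ^ (nm b).natAbs := by
  rw [← ub_mul ha hb h2, ← ub_mul hb ha h1, mul_comm]

end Pool.Agent.Lib.MP_696deb_nt.EW
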