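import Pool.Agent.Lib.MP_696deb_nt.EW.L2
import Pool.Agent.Lib.MP_696deb_nt.EV.G0a

/-! The Galois action on division points and the Hecke character. -/

set_option autoImplicit false

open scoped Classical
open Finset WeierstrassCurve.Affine

namespace Pool.Agent.Lib.MP_696deb_nt.EW

open CL (nm_mul nm_star nm_nonneg mul_star_self)
open CU (kk kk_spec rho rho_cube rho_ne)
open H3.TA (zeta_cube)

/-- The discrete logarithm of a division point. -/
noncomputable def dlg (m : O) (P : A) : O := if h : ∃ a : O, P = a • tq 1 m then h.choose else 0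

/-- The scalar by which `g` acts on the points killed by `m`. -/
noncomputable def cm (m : O) (g : Gam) : O := dlg m (g • tq 1 m)

variable {m n a π : O} {g h : Gam} {P : A} {v : Plc}

theorem dlg_spec (hm : m ≠ 0) (hP : m • P = 0) : dlg m P • tq 1 m = P := by
  rw [dlg, dif_pos (exists_eq_tq hm hP)]
  exact (exists_eq_tq hm hP).choose_spec.symm

theorem m_tq (hm : m ≠ 0) : m • tq 1 m = 0 := (smul_tq_one hm).2 dvd_rfl

theorem cm_spec (hm : m ≠ 0) (hg : g ∈ GK 3) (hP : m • P = 0) : g • P = cm m g • P := by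
  obtain ⟨a, rfl⟩ := exists_eq_tq hm hP
  rw [vm_smul hg, smul_comm (cm m g), cm,
    dlg_spec hm (by rw [← vm_smul hg, m_tq hm, smul_zero])]

theorem smul_tq_eq (hm : m ≠ 0) {a b : O} : a • tq 1 m = b • tq 1 m ↔ m ∣ a - b := by
  rw [← smul_tq_one hm, sub_smul, sub_eq_zero]

theorem cm_uniq (hm : m ≠ 0) (hg : g ∈ GK 3) (h : g • tq 1 m = a • tq 1 m) :
    m ∣ cm m g - a := (smul_tq_eq hm).1 ((cm_spec hm hg (m_tq hm)).symm.trans h)

theorem cm_one (hm : m ≠ 0) : m ∣ cm m 1 - 1 :=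
  cm_uniq hm (one_mem _) ((one_smul _ _).trans (one_smul _ _).symm)

theorem cm_mul (hm : m ≠ 0) (hg : g ∈ GK 3) (hh : h ∈ GK 3) :
    m ∣ cm m (g * h) - cm m g * cm m h :=
  cm_uniq hm (mul_mem hg hh) (by
    rw [mul_smul, cm_spec hm hh (m_tq hm), vm_smul hg, cm_spec hm hg (m_tq hm), smul_smul, mul_comm])

theorem cm_dvd (hm : m ≠ 0) (hn : n ∣ m) (hg : g ∈ GK 3) : n ∣ cm n g - cm m g := by
  have n0 := ne_zero_of_dvd_ne_zero hm hn
  exact cm_uniq n0 hg (cm_spec hm hg ((smul_tq_one n0).2 hn))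

theorem cm_cop (hm : m ≠ 0) (hg : g ∈ GK 3) : IsCoprime (cm m g) m := by
  obtain ⟨c, e⟩ := (cm_one hm).sub (mul_inv_cancel g ▸ cm_mul hm hg (inv_mem hg))
  exact ⟨cm m g⁻¹, -c, by linear_combination e⟩

theorem cm_prim (hm : m ≠ 0) (h3 : 3 ∣ m) (hg : g ∈ GK 3) : 3 ∣ cm m g - 1 := by
  have w3 : (3 : O) ≠ 0 := by decide
  obtain ⟨c, rfl⟩ := h3
  obtain ⟨a, e⟩ := exists_eq_tq w3 three_T3
  have k := cm_spec hm hg (P := T3) (by rw [mul_comm, mul_smul, three_T3, smul_zero])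
  rw [H3.TA.smul_T3, e, smul_smul, eq_comm, smul_tq_eq w3, ← sub_one_mul] at k
  refine (cop_three fun k => ?_).dvd_of_dvd_mul_right k
  obtain ⟨b, rfl⟩ := w_dvd k
  exact w_T3.2 (by
    rw [e, smul_smul, smul_tq_one w3, ← mul_assoc, ← sq, CU.th_sq]
    exact (dvd_neg.2 dvd_rfl).mul_right _)

theorem prim_iff : Prim n ↔ 3 ∣ n - 1 := by
  refine ⟨fun h => (prim_eq h).imp fun c e => by rw [e, add_sub_cancel_left], fun e => ?_⟩
  have := CL.nat_dvd.1 (show ((3 : ℕ) : O) ∣ n - 1 from e)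
  simp only [QuadraticAlgebra.re_sub, QuadraticAlgebra.im_sub, QuadraticAlgebra.re_one,
    QuadraticAlgebra.im_one] at this
  constructor <;> omega

theorem sm_vm (H : Subgroup Gam) (P : A) : B2.Sm H fun g => g • P := H3.sm_pt H P

theorem sm_cm (H : Subgroup Gam) (m : O) : B2.Sm H (cm m) := (sm_vm H _).comp (dlg m)

theorem cm_frob {z : O} (hp : Prime z) (h : Prim z) (hv : v.V (io z) < 1)
    (hg : IsFrob v (nm z).natAbs g) (hm : v.V (io m) = 1) : m ∣ cm m g - z := by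
  have m0 : m ≠ 0 := fun e => by simp [e] at hm
  exact cm_uniq m0 (frob_II (prim_norm h) (V_three_of (prim_red h) hv) hg)
    (frob hp h hv hg hm (m_tq m0))

theorem cm_ine (hv : v.p ≠ 3) (hg : g ∈ Ine v) (hm : v.V (io m) = 1) : m ∣ cm m g - 1 := by
  have m0 : m ≠ 0 := fun e => by simp [e] at hm
  exact cm_uniq m0 (ine_II hv hg) ((ine_fix hv hg hm (m_tq m0)).trans (one_smul _ _).symm)

theorem io_fix (hg : g ∈ GK 3) (a : O) : g (io a) = io a := by
  simp [io_apply, H3.smul_zeta_one hg]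

/-- The cube root of a primary prime lies in the field of its division points. -/
theorem cm_cube (hp : Prime π) (h : Prim π) (hg : g ∈ GK 3) :
    EV.chC (io π) g = 0 ↔ ∃ s : O, π ∣ cm π g - s ^ 3 := by
  have p0 := hp.ne_zero
  have : (Ideal.span {π}).IsMaximal :=
    PrincipalIdealRing.isMaximal_of_irreducible hp.irreducible
  let _ := Ideal.Quotient.field (Ideal.span {π})
  have c1 : Nat.card (O ⧸ Ideal.span {π}) = (nm π).natAbs := by
    rw [← card_quot, Int.natAbs_natCast]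
  have c2 := prim_norm h
  have : Finite (O ⧸ Ideal.span {π}) := Nat.finite_of_card_ne_zero (by omega)
  obtain ⟨γ, hγ⟩ := IsCyclic.exists_ofOrder_eq_natCard (α := (O ⧸ Ideal.span {π})ˣ)
  obtain ⟨n, hn⟩ : ∃ n, (nm π).natAbs = 3 * n + 1 := ⟨(nm π).natAbs / 3, by omega⟩
  rw [Nat.card_units, c1, hn, Nat.add_sub_cancel] at hγ
  have n0 : 0 < n := by
    have := orderOf_pos γ
    omega
  obtain ⟨c, hc⟩ := Ideal.Quotient.mk_surjective (γ : O ⧸ Ideal.span {π})
  have q : ∀ {a b : O}, π ∣ a - b ↔ Ideal.Quotient.mk (Ideal.span {π}) a = Ideal.Quotient.mk _ b :=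
    (Ideal.Quotient.eq.trans Ideal.mem_span_singleton).symm
  have m : ∀ j : ℕ, c ^ j • tq 1 π ∈ (En π).erase 0 := fun j => (mem_En0 p0).2
    ⟨fun e => (γ ^ j).ne_zero (by
      rw [Units.val_pow_eq_pow_val, ← hc, ← map_pow, Ideal.Quotient.eq_zero_iff_mem,
        Ideal.mem_span_singleton]
      exact (smul_tq_one p0).1 e), by rw [smul_comm, m_tq p0, smul_zero]⟩
  have inj : Set.InjOn (fun j : ℕ => c ^ j • tq 1 π) (range (3 * n)) := fun i hi j hj e => by
    rw [smul_tq_eq p0, q, map_pow, map_pow, hc] at e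
    exact pow_injOn_Iio_orderOf (by simpa [hγ] using hi) (by simpa [hγ] using hj)
      (Units.ext e)
  have cd := card_En0 p0
  have sur := surjOn_of_injOn_of_card_le _ (fun j _ => m j) inj (by rw [card_range]; omega)
  obtain ⟨η, e0, e1⟩ : ∃ η : Qbar, IsPrimitiveRoot η 3 ∧
      ∀ P : A, π • P = 0 → xco (c ^ n • P) = η * xco P := by
    have k : ∀ u : O, Ideal.Quotient.mk (Ideal.span {π}) (c ^ n) = Ideal.Quotient.mk _ u →
        ∀ P : A, π • P = 0 → c ^ n • P = u • P := fun u e P hP => by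
      obtain ⟨d, k⟩ := q.2 e
      rw [eq_add_of_sub_eq k, add_smul, mul_comm, mul_smul, hP, smul_zero, zero_add]
    have z := H3.zeta_prim 1
    rcases CL.f1_roots (r := Ideal.Quotient.mk (Ideal.span {π}) om) (u := γ ^ n)
      (by rw [← map_mul, show om * om = -1 - om by decide, map_sub, map_neg, map_one]) (by
        rw [← pow_mul, mul_comm, ← hγ, ← Units.val_pow_eq_pow_val, pow_orderOf_eq_one,
          Units.val_one]) with e | e | e
    · exact absurd (Units.ext e) (pow_ne_one_of_lt_orderOf (x := γ) n0.ne' (by omega))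
    · exact ⟨_, z.pow_of_coprime 2 (by norm_num), fun P hP => by
        rw [k om (by rw [map_pow, hc, e]) P hP, x_om]⟩
    · exact ⟨_, z.pow_of_coprime 4 (by norm_num), fun P hP => by
        rw [k (om * om) (by rw [map_pow, hc, e, map_mul]) P hP, mul_smul, x_om, x_om]
        ring⟩
  obtain ⟨S, hS⟩ : ∃ S : ℕ → Qbar, ∀ k, S k = ∏ j ∈ range n, xco (c ^ (k + j) • tq 1 π) :=
    ⟨_, fun _ => rfl⟩
  have x0 : ∀ j : ℕ, xco (c ^ j • tq 1 π) ≠ 0 := fun j => Xb_ne (prim_red h) (m j)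
  have e2 : ∀ k, S k = η ^ k * S 0 := fun k => by
    induction k with
    | zero => simp
    | succ k ih =>
      have k1 := (prod_range_succ (fun j => xco (c ^ (k + j) • tq 1 π)) n).symm.trans
        (prod_range_succ' _ n)
      have k2 : xco (c ^ (k + n) • tq 1 π) = η * xco (c ^ k • tq 1 π) := by
        rw [add_comm, pow_add, mul_smul, e1 _ ((mem_En0 p0).1 (m k)).2]
      simp only [← add_assoc, add_right_comm k _ 1, ← hS, k2, add_zero] at k1
      rw [pow_succ, mul_right_comm, ← ih]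
      exact mul_right_cancel₀ (x0 k) (by linear_combination -k1)
  have e3 := x_prod (prim_T3 h)
  rw [show ((En π).erase 0).card = n * 3 by omega, pow_mul,
    ← prod_nbij _ (fun j _ => m j) inj sur (f := fun j => xco (c ^ j • tq 1 π)) fun _ _ => rfl,
    show 3 * n = n + n + n by ring, prod_range_add, prod_range_add,
    ← hS, ← hS, show ∏ j ∈ range n, xco (c ^ j • tq 1 π) = S 0 by simp [hS], e2 n,
    e2 (n + n)] at e3
  have t0 : (3 : Qbar) ^ n ≠ 0 := pow_ne_zero _ three_ne_zero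
  have e4 : (io π * S 0 / 3 ^ n) ^ 3 = io π := by
    have : (η ^ n) ^ 3 = 1 := by rw [pow_right_comm, e0.pow_eq_one, one_pow]
    rw [div_pow, div_eq_iff (pow_ne_zero _ t0), ← e3, pow_add]
    linear_combination -io π ^ 3 * S 0 ^ 3 * this
  have s0 : io π * S 0 / 3 ^ n ≠ 0 := fun e => io_ne p0 (by rw [← e4, e, zero_pow three_ne_zero])
  have lg : ∀ a : O, ¬ π ∣ a → ∃ k < 3 * n, π ∣ a - c ^ k := fun a ha => by
    obtain ⟨k, hk, e⟩ := sur (mem_coe.2 ((mem_En0 p0).2 ⟨mt (smul_tq_one p0).1 ha, by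
      rw [smul_comm, m_tq p0, smul_zero]⟩))
    exact ⟨k, by simpa using hk, (smul_tq_eq p0).1 e.symm⟩
  have a0 : ¬ π ∣ cm π g := hp.irreducible.coprime_iff_not_dvd.1 (cm_cop p0 hg).symm
  obtain ⟨k, -, hk⟩ := lg _ a0
  have e5 : g (S 0) = η ^ k * S 0 := by
    rw [← e2, hS, hS, map_prod]
    refine prod_congr rfl fun j _ => ?_
    rw [← xco_act, vm_smul hg, cm_spec p0 hg (m_tq p0), (smul_tq_eq p0).2 hk, smul_smul,
      ← pow_add, zero_add, add_comm]
  rw [EV.chC_zero hg e4, map_div₀, map_mul, map_pow, map_ofNat, io_fix hg, e5, mul_left_comm,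
    mul_div_assoc, mul_eq_right₀ s0, e0.pow_eq_one_iff_dvd]
  refine ⟨fun ⟨l, e⟩ => ⟨c ^ l, by rwa [← pow_mul, mul_comm, ← e]⟩, fun ⟨s, e⟩ => ?_⟩
  obtain ⟨l, -, hl⟩ := lg s fun k => a0 (by simpa using e.add (k.pow three_ne_zero))
  rw [q] at hk hl e
  rw [hk, map_pow, map_pow, hl, map_pow, hc, ← pow_mul] at e
  have := (pow_eq_pow_iff_modEq.1 (Units.ext e : γ ^ k = γ ^ (l * 3))).of_dvd
    (show 3 ∣ orderOf γ by omega)
  unfold Nat.ModEq at this
  omega

/-- Two characters that agree on Frobenius elements are equal. -/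
theorem cheb_eq {Γ : Type} [Monoid Γ] {ε ε' : Gam → Γ} (s1 : B2.Sm (GK 3) ε) (s2 : B2.Sm (GK 3) ε')
    (m1 : ∀ g ∈ GK 3, ∀ h ∈ GK 3, ε (g * h) = ε g * ε h)
    (m2 : ∀ g ∈ GK 3, ∀ h ∈ GK 3, ε' (g * h) = ε' g * ε' h) (k : ℕ)
    (t1 : ∀ g ∈ GK 3, ε g ^ (2 * 3 ^ k) = 1) (t2 : ∀ g ∈ GK 3, ε' g ^ (2 * 3 ^ k) = 1)
    (B : Finset ℕ) (hF : ∀ (v : Plc) (φ : Gam), v.p ∉ B → IsFrob v v.p φ → φ ∈ GK 3 → ε φ = ε' φ)
    (hg : g ∈ GK 3) : ε g = ε' g := by
  obtain ⟨U1, a1, a2, a3⟩ := s1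
  obtain ⟨U2, b1, b2, b3⟩ := s2
  have nG := B2.normal_GK 3
  have k1 : 1 < 2 * 3 ^ k := by
    have := Nat.pos_of_ne_zero (pow_ne_zero k three_ne_zero)
    omega
  have pw : ∀ {ε : Gam → Γ}, (∀ g ∈ GK 3, ∀ h ∈ GK 3, ε (g * h) = ε g * ε h) →
      (∀ g ∈ GK 3, ε g ^ (2 * 3 ^ k) = 1) → ∀ g ∈ GK 3, ∀ n, ε (g ^ n) = ε g ^ n :=
    fun {ε} m t g hg n => by
    induction n with
    | zero =>
      have e : IsIdempotentElem (ε 1) := (m 1 (one_mem _) 1 (one_mem _)).symm.trans (by rw [mul_one])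
      rw [pow_zero, pow_zero, ← t 1 (one_mem _), e.pow_eq (by omega)]
    | succ n ih => rw [pow_succ, m _ (pow_mem hg _) _ hg, ih, ← pow_succ]
  have o1 : ε 1 = 1 := by simpa using pw m1 t1 1 (one_mem _) 0
  have o2 : ε' 1 = 1 := by simpa using pw m2 t2 1 (one_mem _) 0
  let K : Subgroup Gam :=
    { carrier := {u | u ∈ GK 3 ∧ ε u = 1 ∧ ε' u = 1}
      one_mem' := ⟨one_mem _, o1, o2⟩
      mul_mem' := fun {a b} ha hb => ⟨mul_mem ha.1 hb.1, by
        rw [m1 a ha.1 b hb.1, ha.2.1, hb.2.1, mul_one], by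
        rw [m2 a ha.1 b hb.1, ha.2.2, hb.2.2, mul_one]⟩
      inv_mem' := fun {a} ha => ⟨inv_mem ha.1, by
        rw [← mul_one (ε _), ← ha.2.1, ← m1 _ (inv_mem ha.1) a ha.1, inv_mul_cancel, o1, ha.2.1], by
        rw [← mul_one (ε' _), ← ha.2.2, ← m2 _ (inv_mem ha.1) a ha.1, inv_mul_cancel, o2, ha.2.2]⟩ }
  have le : U1 ⊓ U2 ⊓ GK 3 ≤ K.normalCore := Subgroup.normal_le_normalCore.2 fun u hu =>
    ⟨hu.2, (a3 1 (one_mem _) u hu.2 (by simpa using hu.1.1)).symm.trans o1,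
      (b3 1 (one_mem _) u hu.2 (by simpa using hu.1.2)).symm.trans o2⟩
  obtain ⟨v, φ, a, h1, h2, h3, h4⟩ := H3.cheb K.normalCore g k B
    (Subgroup.isOpen_mono le ((a1.inter b1).inter (B2.op_GK 3))) inferInstance fun b => by
      have := nG.conj_mem g hg b
      rw [← conj_pow]
      exact ⟨pow_mem this _, (pw m1 t1 _ this _).trans (t1 _ this),
        (pw m2 t2 _ this _).trans (t2 _ this)⟩
  obtain ⟨h5, h6, h7⟩ := K.normalCore_le h4
  have h8 : φ ∈ GK 3 := by simpa using mul_mem (pow_mem hg a) (inv_mem h5)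
  have c1 := m1 φ h8 _ h5
  have c2 := m2 φ h8 _ h5
  rw [mul_inv_cancel_left, h6, mul_one, pw m1 t1 g hg, hF v φ h1 h2 h8] at c1
  rw [mul_inv_cancel_left, h7, mul_one, pw m2 t2 g hg, ← c1] at c2
  obtain ⟨j, -, hj⟩ := Nat.exists_mul_mod_eq_one_of_coprime (k := 2 * 3 ^ k) (n := a)
    ((h3.pow_right (k + 1)).coprime_dvd_right (by
      rw [show 6 = 2 * 3 from rfl, mul_pow]
      exact mul_dvd_mul (dvd_pow_self 2 (by omega)) (pow_dvd_pow 3 (by omega)))) k1
  rw [← pow_one (ε g), ← pow_one (ε' g), ← hj, ← pow_eq_pow_mod _ (t1 g hg),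
    ← pow_eq_pow_mod _ (t2 g hg), pow_mul, pow_mul, c2]

theorem frob_mod (hv : v.p ≠ 3) (h : IsFrob v v.p g) (hg : g ∈ GK 3) : v.p % 3 = 1 := by
  rw [H3.mem_GK3, H3.cy, H3.cyc_frob hv h, map_natCast] at hg
  exact (ZMod.natCast_eq_natCast_iff' v.p 1 3).1 (by rw [Nat.cast_one]; exact hg)

theorem exists_split (hv : v.p % 3 = 1) : ∃ (_ : Fact v.p.Prime) (z : O) (ρ : O →+* ZMod v.p)
    (χ : MulChar (ZMod v.p) O), Qc v.p z ρ χ ∧ (v.V (io z) < 1 ∨ v.V (io (star z)) < 1) := by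
  have : Fact v.p.Prime := ⟨v.prime⟩
  obtain ⟨z, ρ, χ, h⟩ := CL.exists_qc hv
  refine ⟨this, z, ρ, χ, h, by_contra fun k => ?_⟩
  rw [not_or, not_lt, not_lt] at k
  have := one_le_mul k.1 k.2
  rw [← map_mul, ← map_mul, CL.f3_mul h.norm, map_natCast, v.hV,
    one_le_inv₀ (by exact_mod_cast v.prime.pos)] at this
  exact this.not_gt (by exact_mod_cast v.prime.one_lt)

theorem prim_star (h : Prim n) : Prim (star n) := by
  have := map_dvd (starRingEnd O) (prim_iff.1 h)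
  rw [map_sub, map_one, map_ofNat] at this
  exact prim_iff.2 this

theorem io_un (u : F3) : io (CU.un u) * zeta 1 ^ u.val = 1 := by
  rw [CU.un, map_pow, io_om, ← mul_pow, ← pow_succ, zeta_cube, one_pow]

theorem un_io (h : a ^ 3 = 1) {u : F3} (e : io a = zeta 1 ^ u.val) : star a = CU.un u := by
  have h1 : CU.un u * a = 1 := io_inj (by rw [map_mul, e, io_un, map_one])
  have h2 : star a * a = 1 := by
    rcases CL.f1_roots (show om * om = -1 - om by decide) h with rfl | rfl | rfl <;> decide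
  exact (IsUnit.of_mul_eq_one_right _ h1).mul_right_cancel (h2.trans h1.symm)

theorem kk_mul_g {D : ℕ} (hD : D ≠ 0) (hg : g ∈ GK 3) (h : Gam) : kk D (g * h) = kk D g + kk D h :=
  CU.kk_eq hD (by
    rw [AlgEquiv.mul_apply, kk_spec D h, map_mul, map_pow, H3.smul_zeta_one hg, kk_spec,
      H3.zeta_val_add 1 (kk D g) (kk D h), mul_assoc])

theorem sm_kk (D : ℕ) (H : Subgroup Gam) : B2.Sm H (kk D) :=
  (B2.sm_apply (rho D)).comp fun x : Qbar =>
    (if x = rho D then 0 else if x = rho D * zeta 1 then 1 else 2 : F3)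

theorem V_io_one (h : ¬ (v.p : ℤ) ∣ nm m) : v.V (io m) = 1 := by
  have := v.V_int_eq_one.2 h
  rw [← map_intCast io, ← mul_star_self, map_mul, map_mul] at this
  exact le_antisymm (V_io_le v m) (this.ge.trans (mul_le_of_le_one_right' (V_io_le v _)))

theorem per_dvd {β : Type} {M : ℕ} {φ : O → β} (per : Per M φ) {b : O} (h : (M : O) ∣ a - b) :
    φ a = φ b := by
  obtain ⟨c, e⟩ := h
  rw [eq_add_of_sub_eq' e, per]

theorem unit_six (h0 : a ≠ 0) (h : nm a ≤ 1) : a ^ 6 = 1 := by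
  have k2 := nm_pos h0
  obtain ⟨x, y⟩ := a
  simp only [CL.nm] at h k2
  have : -1 ≤ x ∧ x ≤ 1 ∧ -1 ≤ y ∧ y ≤ 1 := by
    refine ⟨?_, ?_, ?_, ?_⟩ <;> nlinarith [sq_nonneg (x - 2 * y), sq_nonneg (2 * x - y)]
  obtain ⟨_, _, _, _⟩ := this
  interval_cases x <;> interval_cases y <;> first | decide | simp at h k2

/-- The Hecke character and the twisting character. -/
theorem link_phi {D : ℕ} (hD : D ≠ 0) {N : ℤ} {φ : O → O} (h1 : Gch N φ) {M : ℕ} (hM : 0 < M)
    (per : Per M φ)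
    (h8 : ∀ (p : ℕ) [Fact p.Prime] (z : O) (ρ : O →+* ZMod p) (χ : MulChar (ZMod p) O),
      Qc p z ρ χ → ¬ p ∣ D → φ z = star (χ D))
    (hg : g ∈ GK 3) : φ (cm M g) = CU.un (kk D g) := by
  have M0 : (M : O) ≠ 0 := Nat.cast_ne_zero.2 hM.ne'
  refine cheb_eq (ε := fun g => φ (cm M g)) (ε' := fun g => CU.un (kk D g)) ((sm_cm _ _).comp φ)
    ((sm_kk D _).comp CU.un) (fun g hg h hh => ?_) (fun g hg h _ => ?_) 1
    (fun g hg => unit_six (phi_ne h1 per (cm_cop M0 hg)) (h1.bd _))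
    (fun g _ => (by decide : ∀ u : F3, CU.un u ^ 6 = 1) _) (3 * D * M).primeFactors
    (fun v g hv hf hg => ?_) hg
  · rw [per_dvd per (cm_mul M0 hg hh), h1.mul]
  · rw [kk_mul_g hD hg, CU.un_add]
  have b0 : ¬ v.p ∣ 3 * D * M := fun e => hv (Nat.mem_primeFactors.2
    ⟨v.prime, e, by positivity⟩)
  have b1 : v.p ≠ 3 := fun e => b0 (by rw [e]; exact (dvd_mul_right 3 _).mul_right _)
  have b2 : ¬ v.p ∣ D := fun e => b0 ((e.mul_left 3).mul_right _)
  have b3 : v.V (io M) = 1 := by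
    rw [map_natCast, ← Int.cast_natCast]
    exact v.V_int_eq_one.2 fun e => b0 ((Int.natCast_dvd_natCast.1 e).mul_left _)
  have b4 := frob_mod b1 hf hg
  obtain ⟨_, z, σ, χ, hq, hz⟩ := exists_split b4
  have c1 := hq.cube D (mt (ZMod.natCast_eq_zero_iff _ _).1 b2)
  have c2 : z ∣ χ D - D ^ (v.p / 3) := (hq.ker _).1 (by
    rw [map_sub, hq.spec, map_pow, map_natCast, sub_self])
  obtain ⟨z, u, z1, z2, z3, u1, u2, u3⟩ : ∃ z u : O, Prim z ∧ nm z = v.p ∧ v.V (io z) < 1 ∧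
      u ^ 3 = 1 ∧ z ∣ u - D ^ (v.p / 3) ∧ φ z = star u := by
    rcases hz with k | k
    · exact ⟨z, _, hq.prim, hq.norm, k, c1, c2, h8 _ z σ χ hq b2⟩
    · exact ⟨_, star (χ D), prim_star hq.prim, (nm_star z).trans hq.norm, k,
        by rw [← star_pow, c1, star_one], CL.f3_star (by simpa using c2),
        by rw [h1.conj, h8 _ z σ χ hq b2]⟩
  rw [per_dvd per (cm_frob (CL.f3_prime v.prime b4 z2) z1 z3 (by rwa [z2]) b3), u3]
  refine un_io u1 ?_
  have r1 : v.V (rho D) = 1 := (pow_eq_one_iff_left three_ne_zero).1 (by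
    rw [← map_pow, rho_cube, ← Int.cast_natCast,
      v.V_int_eq_one.2 (mt Int.natCast_dvd_natCast.1 b2)])
  have u4 : io u ^ 3 = 1 := by rw [← map_pow, u1, map_one]
  have u5 := v.V_root_of_unity three_ne_zero u4
  have u0 : io u ≠ 0 := v.V.ne_zero_iff.1 (u5 ▸ one_ne_zero)
  rw [eq_comm, ← div_eq_one_iff_eq u0]
  refine v.eq_one_of_root (n := 3) (fun e => b0 ((e.mul_right _).mul_right _)) (by
    rw [div_pow, pow_right_comm, zeta_cube, one_pow, u4, div_one]) ?_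
  obtain ⟨c, e⟩ := u2
  have e2 := congrArg io e
  rw [map_sub, map_pow, map_natCast, ← rho_cube, ← pow_mul, map_mul] at e2
  rw [div_sub_one u0, map_div₀, u5, div_one, show zeta 1 ^ (kk D g).val - io u =
    (g (rho D) - rho D ^ v.p) / rho D - io z * io c by
      have := rho_ne hD
      rw [← e2, show rho D ^ v.p = rho D ^ (3 * (v.p / 3) + 1) from congrArg _ (by omega),
        pow_succ, kk_spec]
      field_simp
      ring]
  refine v.V.map_sub_lt ?_ ?_
  · rw [map_div₀, r1, div_one]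
    exact hf.2 _ r1.le
  · rw [map_mul]
    exact mul_lt_one_of_lt_of_le z3 (V_io_le v c)

theorem norm_cong {e : ℕ} {b : O} (h : (3 : O) ^ e ∣ a - b) :
    (nm a : ZMod (3 ^ e)) = (nm b : ZMod (3 ^ e)) := by
  rw [show (3 : O) ^ e = ((3 ^ e : ℕ) : O) by simp, CL.nat_dvd] at h
  simp only [CL.nm, Int.cast_sub, Int.cast_mul, Int.cast_add, Int.cast_pow]
  rw [(ZMod.intCast_eq_intCast_iff_dvd_sub _ _ _).2 h.1,
    (ZMod.intCast_eq_intCast_iff_dvd_sub _ _ _).2 h.2]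

/-- The norm of the scalar is the cyclotomic character. -/
theorem link_cy (e : ℕ) (hg : g ∈ GK 3) : (nm (cm (3 ^ e) g) : ZMod (3 ^ e)) = H3.cy e g := by
  have M0 : (3 : O) ^ e ≠ 0 := pow_ne_zero _ (by decide)
  have two : ∀ x : ZMod (3 ^ e), IsUnit x → x ^ (2 * 3 ^ e) = 1 := by
    rintro _ ⟨u, rfl⟩
    cases e with
    | zero => exact Subsingleton.elim (α := ZMod 1) _ _
    | succ e =>
      have := ZMod.pow_totient u
      rw [Nat.totient_prime_pow_succ Nat.prime_three] at this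
      rw [← Units.val_pow_eq_pow_val, show 2 * 3 ^ (e + 1) = 3 ^ e * (3 - 1) * 3 by ring, pow_mul,
        this, one_pow, Units.val_one]
  refine cheb_eq (ε := fun g => (nm (cm (3 ^ e) g) : ZMod (3 ^ e)))
    ((sm_cm _ _).comp fun a : O => (nm a : ZMod (3 ^ e))) (H3.sm_cy _) (fun g hg h hh => ?_)
    (fun g _ h _ => H3.cy_mul e g h) e (fun g hg => two _ ?_)
    (fun g _ => two _ (H3.cy_unit e g)) {3} (fun v g hv hf hg => ?_) hg
  · rw [norm_cong (cm_mul M0 hg hh), nm_mul, Int.cast_mul]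
  · obtain ⟨s, t, k⟩ := cm_cop M0 hg
    refine IsUnit.of_mul_eq_one_right (nm s : ZMod (3 ^ e)) ?_
    rw [← Int.cast_mul, ← nm_mul, norm_cong (b := 1) ⟨-t, by linear_combination k⟩]
    exact Int.cast_one
  have b1 : v.p ≠ 3 := mt mem_singleton.2 hv
  have b4 := frob_mod b1 hf hg
  obtain ⟨_, z, σ, χ, hq, hz⟩ := exists_split b4
  obtain ⟨z, z1, z2, z3⟩ : ∃ z : O, Prim z ∧ nm z = v.p ∧ v.V (io z) < 1 :=
    hz.elim (fun k => ⟨z, hq.prim, hq.norm, k⟩) fun k =>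
      ⟨_, prim_star hq.prim, (nm_star z).trans hq.norm, k⟩
  rw [norm_cong (cm_frob (CL.f3_prime v.prime b4 z2) z1 z3 (by rwa [z2]) (by
    rw [map_pow, map_pow, map_ofNat, V_three b1, one_pow])), z2, H3.cy, H3.cyc_frob b1 hf,
    map_natCast, Int.cast_natCast]

end Pool.Agent.Lib.MP_696deb_nt.EW
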