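import Pool.Agent.Lib.MP_696deb_nt.CL.F0

/-! The Eisenstein integers form a principal ideal domain. -/

set_option autoImplicit false

open scoped Classical

namespace Pool.Agent.Lib.MP_696deb_nt.EW

open CL

theorem o0_round (x : ℤ) {N : ℤ} (h : 0 < N) : ∃ q : ℤ, -N ≤ 2 * (x - N * q) ∧ 2 * (x - N * q) ≤ N := by
  have h1 := Int.emod_nonneg (2 * x + N) (b := 2 * N) (by omega)
  have h2 := Int.emod_lt_of_pos (2 * x + N) (b := 2 * N) (by omega)
  have h3 := Int.emod_add_mul_ediv (2 * x + N) (2 * N)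
  exact ⟨(2 * x + N) / (2 * N), by linarith, by linarith⟩

theorem exists_rem (a : O) {b : O} (hb : b ≠ 0) : ∃ q : O, nm (a - b * q) < nm b := by
  have h0 : 0 < nm b := (nm_nonneg b).lt_of_ne' (mt nm_eq_zero.1 hb)
  obtain ⟨q1, a1, a2⟩ := o0_round (a * star b).re h0
  obtain ⟨q2, b1, b2⟩ := o0_round (a * star b).im h0
  refine ⟨⟨q1, q2⟩, lt_of_mul_lt_mul_right ?_ h0.le⟩
  have e : (a - b * ⟨q1, q2⟩) * star b =
      ⟨(a * star b).re - nm b * q1, (a * star b).im - nm b * q2⟩ := by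
    rw [sub_mul, mul_right_comm, mul_star_self]
    ext <;> simp
  conv_lhs => rw [← nm_star b, ← nm_mul, e, nm]
  dsimp only
  generalize (a * star b).re - nm b * q1 = s at *
  generalize (a * star b).im - nm b * q2 = t at *
  nlinarith [mul_nonneg (sub_nonneg.2 a1) (sub_nonneg.2 a2),
    mul_nonneg (sub_nonneg.2 b1) (sub_nonneg.2 b2), sq_nonneg (s + t), mul_pos h0 h0]

instance : IsPrincipalIdealRing O := ⟨fun I => by
  by_cases h : ∃ n : ℕ, ∃ b ∈ I, b ≠ 0 ∧ (nm b).natAbs = n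
  · obtain ⟨b, hb, b0, e⟩ := Nat.find_spec h
    refine ⟨b, le_antisymm (fun a ha => ?_) ((Submodule.span_singleton_le_iff_mem _ _).2 hb)⟩
    obtain ⟨q, hq⟩ := exists_rem a b0
    refine Ideal.mem_span_singleton'.2 ⟨q, by_contra fun k => ?_⟩
    have := Nat.find_min' h ⟨a - b * q, I.sub_mem ha (I.mul_mem_right q hb),
      fun e' => k (by rw [mul_comm, ← sub_eq_zero.1 e']), rfl⟩
    have h1 := nm_nonneg (a - b * q)
    omega
  · exact ⟨0, le_antisymm (fun a ha => by
      rw [show a = 0 from by_contra fun k => h ⟨_, a, ha, k, rfl⟩]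
      exact Submodule.zero_mem _) ((Submodule.span_singleton_le_iff_mem _ _).2 I.zero_mem)⟩⟩

instance : UniqueFactorizationMonoid O := inferInstance

theorem nm_pos {n : O} (hn : n ≠ 0) : 0 < nm n :=
  (nm_nonneg n).lt_of_ne' (mt nm_eq_zero.1 hn)

theorem isUnit_iff {u : O} : IsUnit u ↔ nm u = 1 := by
  refine ⟨fun ⟨v, e⟩ => ?_, fun h => .of_mul_eq_one (star u) (by rw [mul_star_self, h]; rfl)⟩
  have := nm_mul v (↑v⁻¹)
  rw [Units.mul_inv, e] at this
  exact Int.eq_one_of_mul_eq_one_right (nm_nonneg u) this.symm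

end Pool.Agent.Lib.MP_696deb_nt.EW
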