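import Pool.Agent.Lib.MP_696deb_nt.EA.K1
import Pool.Agent.Shared.Weier.Unif
import Pool.Agent.Lib.MP_696deb_nt.EW.O0
import Pool.Agent.Lib.MP_23455a_nt.H3.TAe

/-! The period lattice of the curve `y ^ 2 + y = x ^ 3 - 7`. -/

set_option autoImplicit false

open Complex Filter Topology PeriodPair
open scoped Real ComplexConjugate Classical

namespace Pool.Agent.Lib.MP_696deb_nt.EW

export Pool.Agent.Lib.MP_696deb_nt.CL (toC toC_inj reps cnt)
export Pool.Agent.Lib.MP_23455a_nt (Pt W27)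
export Pool.Agent.Lib.MP_696deb_nt.EA (gs St Es)
export Pool.Agent.Shared.Weier (sig zet eta)

open Pool.Agent.Shared.Weier CL
open H3.TA (taeOm tae_ext)

theorem wC_cube : wC ^ 3 = 1 := by linear_combination (wC - 1) * wC_sq

theorem wC_ne : wC ≠ 0 := H3.TA.tae_ne wC_cube

theorem wC_im : wC.im ≠ 0 := fun e => by
  have h := f0_conj
  rw [conj_eq_iff_im.2 e] at h
  have : (3 : ℂ) = 0 := by linear_combination 4 * wC_sq - (2 * wC + 1) * h
  norm_num at this

theorem om_coe : toC om = wC := by simp [toC_apply, om]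

/-- A multiple of the lattice of Eisenstein integers. -/
noncomputable def LO {c : ℂ} (hc : c ≠ 0) : PeriodPair :=
  ⟨c, c * wC, LinearIndependent.pair_iff.2 fun s t h => by
    have : (s : ℂ) + t * wC = 0 := mul_left_cancel₀ hc (by
      simp only [real_smul] at h
      linear_combination h)
    have h2 : t = 0 := by simpa [wC_im] using congrArg im this
    exact ⟨by simpa [h2] using this, h2⟩⟩

section
variable {c : ℂ} (hc : c ≠ 0)

theorem mem_LO {z : ℂ} : z ∈ (LO hc).lattice ↔ ∃ γ : O, z = c * toC γ := by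
  rw [mem_lattice]
  refine ⟨fun ⟨m, n, h⟩ => ⟨⟨m, n⟩, ?_⟩, fun ⟨γ, h⟩ => ⟨γ.re, γ.im, ?_⟩⟩
  · rw [← h, toC_apply]
    simp only [LO]
    ring
  · rw [h, toC_apply]
    simp only [LO]
    ring

/-- The parametrisation of the lattice. -/
noncomputable def eO : O ≃ (LO hc).lattice :=
  Equiv.ofBijective (fun γ => ⟨c * toC γ, (mem_LO hc).2 ⟨γ, rfl⟩⟩)
    ⟨fun _ _ h => toC_inj (mul_left_cancel₀ hc (congrArg Subtype.val h)),
      fun l => ((mem_LO hc).1 l.2).imp fun _ h => Subtype.ext h.symm⟩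

theorem tsum_LO (f : ℂ → ℂ) : ∑' l : (LO hc).lattice, f l = ∑' γ : O, f (c * toC γ) :=
  ((eO hc).tsum_eq fun l => f l).symm

theorem tsum_rot (f : ℂ → ℂ) :
    ∑' l : (LO hc).lattice, f (wC * l) = ∑' l : (LO hc).lattice, f l := by
  rw [tsum_LO hc fun l => f (wC * l), tsum_LO hc f,
    ← (Units.mulLeft (⟨om, om ^ 2, by decide, by decide⟩ : Oˣ)).tsum_eq fun γ : O =>
      f (c * toC γ)]
  refine tsum_congr fun γ => congrArg f ?_
  rw [Units.mulLeft_apply, map_mul, om_coe, mul_left_comm]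

theorem g2_LO : (LO hc).g₂ = 0 := by
  have h := tsum_rot hc fun l => (l ^ 4)⁻¹
  have e : (wC ^ 4)⁻¹ = wC ^ 2 := inv_eq_of_mul_eq_one_right (by
    rw [← pow_add, show 4 + 2 = 3 * 2 from rfl, pow_mul, wC_cube, one_pow])
  simp only [mul_pow, mul_inv, e, tsum_mul_left] at h
  rw [g₂, PeriodPair.G]
  linear_combination (20 * (wC - 1)) * h - 20 * (∑' l : (LO hc).lattice, ((l : ℂ) ^ 4)⁻¹) *
    (wC - 2) * wC_sq

theorem g3_LO : (LO hc).g₃ = (c ^ 6)⁻¹ * (LO one_ne_zero).g₃ := by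
  rw [g₃, g₃, PeriodPair.G, PeriodPair.G, tsum_LO hc fun l => (l ^ 6)⁻¹,
    tsum_LO one_ne_zero fun l => (l ^ 6)⁻¹, mul_left_comm]
  simp only [mul_pow, mul_inv, one_mul, tsum_mul_left]

end

theorem exists_Om : ∃ c : ℂ, ∃ hc : c ≠ 0, (LO hc).g₃ = 27 := by
  have h := disc_ne_zero (LO one_ne_zero)
  rw [g2_LO] at h
  have h2 : (LO one_ne_zero).g₃ ≠ 0 := fun e => h (by rw [e]; ring)
  obtain ⟨c, hc⟩ := IsAlgClosed.exists_pow_nat_eq ((LO one_ne_zero).g₃ / 27) (n := 6) (by norm_num)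
  refine ⟨c, fun e => ?_, ?_⟩
  · rw [e] at hc
    exact h2 (by linear_combination -27 * hc)
  · rw [g3_LO, hc]
    field_simp

/-- The period. -/
noncomputable def Om : ℂ := exists_Om.choose

theorem Om_ne : Om ≠ 0 := exists_Om.choose_spec.choose

/-- The period lattice. -/
noncomputable def LG : PeriodPair := LO Om_ne

theorem mem_LG {z : ℂ} : z ∈ LG.lattice ↔ ∃ γ : O, z = Om * toC γ := mem_LO _

theorem g3_LG : LG.g₃ = 27 := exists_Om.choose_spec.choose_spec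

theorem g2_LG : LG.g₂ = 0 := g2_LO _

theorem isPer : IsPer LG (W27.baseChange ℂ) := by
  constructor
  · rw [g2_LG]
    simp [W27, WeierstrassCurve.c₄, WeierstrassCurve.b₂, WeierstrassCurve.b₄]
  · rw [g3_LG]
    simp [W27, WeierstrassCurve.c₆, WeierstrassCurve.b₂, WeierstrassCurve.b₄,
      WeierstrassCurve.b₆]
    norm_num

theorem mul_mem_LG (β : O) {z : ℂ} (h : z ∈ LG.lattice) : toC β * z ∈ LG.lattice := by
  obtain ⟨γ, rfl⟩ := mem_LG.1 h
  exact mem_LG.2 ⟨β * γ, by rw [map_mul, mul_left_comm]⟩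

theorem I_mem_LG {z : ℂ} : wC * z ∈ LG.lattice ↔ z ∈ LG.lattice := by
  refine ⟨fun h => ?_, fun h => om_coe ▸ mul_mem_LG om h⟩
  have := mul_mem_LG (om ^ 2) h
  rwa [map_pow, om_coe, ← mul_assoc, ← pow_succ, wC_cube, one_mul] at this

theorem coe_ne {n : O} (hn : n ≠ 0) : toC n ≠ 0 := (map_ne_zero_iff _ toC_inj).2 hn

theorem div_mem_LG {a n : O} (hn : n ≠ 0) : Om * toC a / toC n ∈ LG.lattice ↔ n ∣ a := by
  rw [mem_LG]
  refine exists_congr fun γ => ?_
  rw [div_eq_iff (coe_ne hn), mul_assoc, mul_right_inj' Om_ne, ← map_mul, toC_inj.eq_iff,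
    mul_comm]

theorem wC_inv : wC⁻¹ = wC ^ 2 := inv_eq_of_mul_eq_one_right (by rw [← pow_succ', wC_cube])

theorem wp_I (z : ℂ) : ℘[LG] (wC * z) = wC * ℘[LG] z := by
  rw [weierstrassP, weierstrassP, ← tsum_mul_left]
  refine (tsum_rot Om_ne fun l => 1 / (wC * z - l) ^ 2 - 1 / l ^ 2).symm.trans
    (tsum_congr fun l => ?_)
  have e : (wC ^ 2)⁻¹ = wC := inv_eq_of_mul_eq_one_right (by rw [← pow_succ, wC_cube])
  simp only [← mul_sub wC z, mul_pow, one_div, mul_inv, e]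
  ring

theorem wp'_I (z : ℂ) : ℘'[LG] (wC * z) = ℘'[LG] z := by
  rw [derivWeierstrassP, derivWeierstrassP, neg_inj]
  refine (tsum_rot Om_ne fun l => 2 / (wC * z - l) ^ 3).symm.trans (tsum_congr fun l => ?_)
  rw [← mul_sub, mul_pow, wC_cube, one_mul]

theorem zet_I (z : ℂ) : zet LG (wC * z) = wC ^ 2 * zet LG z := by
  rw [zet, zet, zet0, zet0, mul_add, ← tsum_mul_left]
  congr 1
  · rw [one_div, mul_inv, wC_inv, one_div]
  refine (tsum_rot Om_ne fun l => (wC * z) ^ 2 / (l ^ 2 * (wC * z - l))).symm.trans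
    (tsum_congr fun l => ?_)
  rw [← mul_sub, mul_pow, mul_pow, mul_mul_mul_comm, ← pow_succ, wC_cube, one_mul, mul_div_assoc]

theorem eta_mul (β : O) (z : ℂ) : eta LG (toC β * z) = conj (toC β) * eta LG z := by
  have h1 : ∀ l ∈ LG.lattice, eta LG (wC * l) = wC ^ 2 * eta LG l := fun l hl => by
    have h0 := LG.ω₁_div_two_notMem_lattice
    have a := zet_add (I_mem_LG.2 hl) (mt I_mem_LG.1 h0)
    rw [← mul_add, zet_I, zet_I, zet_add hl h0] at a
    linear_combination -a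
  have h2 : eta LG (wC * z) = wC ^ 2 * eta LG z := by
    obtain ⟨a, b, e⟩ : ∃ a b : ℝ, z = a • LG.ω₁ + b • LG.ω₂ :=
      ⟨LG.basis.repr z 0, LG.basis.repr z 1, by simpa using (LG.basis.sum_repr z).symm⟩
    rw [e, mul_add, mul_smul_comm, mul_smul_comm, map_add, map_add, map_smul, map_smul, map_smul,
      map_smul, h1 _ LG.ω₁_mem_lattice, h1 _ LG.ω₂_mem_lattice]
    simp only [real_smul]
    ring
  rw [toC_apply, add_mul, map_add, mul_assoc, ← zsmul_eq_mul, ← zsmul_eq_mul,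
    map_zsmul, map_zsmul, h2, sq, wC_sq, ← f0_conj]
  simp
  ring

/-- The uniformisation. -/
noncomputable def un : ℂ →+ Pt ℂ := isPer.unif

theorem un_eq_zero {z : ℂ} : un z = 0 ↔ z ∈ LG.lattice := isPer.unif_eq_zero_iff

theorem un_surj : Function.Surjective un := isPer.unif_surjective

theorem un_some {z : ℂ} (hz : z ∉ LG.lattice) :
    ∃ h, un z = .some (℘[LG] z) ((℘'[LG] z - 1) / 2) h := by
  have e1 : ux LG (W27.baseChange ℂ) z = ℘[LG] z := by simp [ux, W27, WeierstrassCurve.b₂]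
  have e2 : uy LG (W27.baseChange ℂ) z = (℘'[LG] z - 1) / 2 := by simp [uy, W27]
  exact ⟨e1 ▸ e2 ▸ isPer.nonsingular hz, (isPer.unif_of_notMem hz).trans (tae_ext e1 e2)⟩

theorem un_I (z : ℂ) : un (wC * z) = taeOm wC_cube (un z) := by
  by_cases hz : z ∈ LG.lattice
  · rw [un_eq_zero.2 hz, un_eq_zero.2 (I_mem_LG.2 hz)]
    rfl
  obtain ⟨h1, e1⟩ := un_some hz
  obtain ⟨h2, e2⟩ := un_some (mt I_mem_LG.1 hz)
  rw [e1, e2]
  exact tae_ext (wp_I z) (by rw [wp'_I])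

end Pool.Agent.Lib.MP_696deb_nt.EW
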