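import Pool.Agent.Lib.MP_696deb_nt.EW.K4
import Pool.Agent.Lib.MP_696deb_nt.CU.E1
import Pool.Agent.Lib.MP_696deb_nt.AutC
import Pool.Agent.Lib.MP_696deb_nt.NeronDup

/-! Division points and the distribution relations over the algebraic numbers. -/

set_option autoImplicit false

open scoped Classical ComplexConjugate
open Complex Finset PeriodPair WeierstrassCurve.Affine

namespace Pool.Agent.Lib.MP_696deb_nt.EW

export Pool.Agent.Lib.MP_696deb_nt.CU (O A om th red T T3 JJ Qbar Gam Plc zeta)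

open Pool.Agent.Shared.Weier
open CL (nm wC wC_sq toC_apply f0_conj mul_star_self)
open MP_23455a_nt (pm pm_inj ns_iff)
open H3.TA (taeOm tae_ext zeta_cube)

theorem zeta_sq : zeta 1 ^ 2 * zeta 1 ^ 2 = -1 - zeta 1 ^ 2 :=
  mul_left_cancel₀ (sub_ne_zero.2 H3.zeta_one_ne) (by
    linear_combination (zeta 1 ^ 2 - zeta 1 + 1) * zeta_cube)

theorem exists_jc : ∃ j : Qbar →+* ℂ, j (zeta 1 ^ 2) = wC := by
  have h := congrArg B2.jC zeta_sq
  rw [map_mul, map_sub, map_neg, map_one] at h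
  generalize hx : B2.jC (zeta 1 ^ 2) = x at h
  have k : (x - wC) * (x - (-1 - wC)) = 0 := by linear_combination h - wC_sq
  rcases mul_eq_zero.1 k with e | e
  · exact ⟨B2.jC, hx.trans (sub_eq_zero.1 e)⟩
  · refine ⟨(starRingEnd ℂ).comp B2.jC, ?_⟩
    rw [RingHom.comp_apply, hx, sub_eq_zero.1 e, ← f0_conj, conj_conj]

/-- A complex embedding. -/
noncomputable def jc : Qbar →+* ℂ := exists_jc.choose

theorem jc_zeta : jc (zeta 1 ^ 2) = wC := exists_jc.choose_spec

/-- The action of the endomorphisms on the invariant differential. -/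
noncomputable def io : O →+* Qbar where
  toFun α := α.re + α.im * zeta 1 ^ 2
  map_one' := by simp [QuadraticAlgebra.re_one, QuadraticAlgebra.im_one]
  map_zero' := by simp
  map_add' α β := by
    simp only [QuadraticAlgebra.re_add, QuadraticAlgebra.im_add]
    push_cast
    ring
  map_mul' α β := by
    simp only [QuadraticAlgebra.re_mul, QuadraticAlgebra.im_mul]
    push_cast
    linear_combination (-(α.im * β.im) : Qbar) * zeta_sq

theorem io_apply (γ : O) : io γ = γ.re + γ.im * zeta 1 ^ 2 := rfl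

theorem io_om : io om = zeta 1 ^ 2 := by simp [io_apply, CU.om]

theorem jc_io (γ : O) : jc (io γ) = toC γ := by
  rw [io_apply, map_add, map_mul, jc_zeta, map_intCast, map_intCast, toC_apply]

theorem io_ne {γ : O} (h : γ ≠ 0) : io γ ≠ 0 := fun e => coe_ne h (by rw [← jc_io, e, map_zero])

theorem io_inj : Function.Injective io :=
  (injective_iff_map_eq_zero io).2 fun _ h => by_contra fun k => io_ne k h

/-- The odd coordinate `2 y + 1`. -/
noncomputable def y2 {F : Type} [Field F] (P : Pt F) : F := yco P - yco (-P)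

/-- The odd coordinate `y + 1 / 2`. -/
noncomputable def yh {F : Type} [Field F] (P : Pt F) : F := y2 P / 2

section
variable {F L : Type} [Field F] [Field L]

theorem y2_neg (P : Pt F) : y2 (-P) = -y2 P := by rw [y2, y2, neg_neg, neg_sub]

theorem co_neg (P : Pt F) : yh (-P) = -yh P := by rw [yh, yh, y2_neg, neg_div]

theorem y2_zero : y2 (0 : Pt F) = 0 := by rw [y2, neg_zero, sub_self]

theorem yh_zero : yh (0 : Pt F) = 0 := by rw [yh, y2_zero, zero_div]

theorem yco_neg {P : Pt F} (h : P ≠ 0) : yco (-P) = -yco P - 1 := by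
  rcases P with _ | ⟨x, y, k⟩
  · exact absurd rfl h
  · rw [Point.neg_some, yco_some, yco_some]
    simp [negY, MP_23455a_nt.W27]

theorem y2_eq {P : Pt F} (h : P ≠ 0) : y2 P = 2 * yco P + 1 := by
  rw [y2, yco_neg h]
  ring

theorem xco_pm (f : F →+* L) (P : Pt F) :
    xco (pm f P) = f (xco P) ∧ yco (pm f P) = f (yco P) := by
  rcases P with _ | ⟨x, y, h⟩
  · rw [← Point.zero_def, map_zero]
    simp
  · exact ⟨rfl, rfl⟩

theorem y2_pm (f : F →+* L) (P : Pt F) : y2 (pm f P) = f (y2 P) := by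
  rw [y2, y2, ← map_neg, (xco_pm f _).2, (xco_pm f _).2, map_sub]

theorem yh_pm (f : F →+* L) (P : Pt F) : yh (pm f P) = f (yh P) := by
  rw [yh, yh, y2_pm, map_div₀, map_ofNat]

end

theorem y2_yh (P : A) : y2 P = 2 * yh P := by rw [yh, mul_div_cancel₀ _ two_ne_zero]

theorem yh_eq {P : A} (h : P ≠ 0) : yh P = yco P + 1 / 2 := by
  rw [yh, y2_eq h]
  ring

/-- The complex point over an algebraic point. -/
noncomputable def cp : A →+ Pt ℂ := pm jc

theorem cp_inj : Function.Injective cp := pm_inj _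

theorem cp_smul (γ : O) {P : A} {z : ℂ} (h : cp P = un z) : cp (γ • P) = un (toC γ * z) := by
  have e : cp (JJ P) = un (wC * z) := by
    rw [un_I, ← h]
    rcases P with _ | ⟨x, y, k⟩
    · rfl
    · exact tae_ext ((map_mul jc _ _).trans (congrArg (· * _) jc_zeta)) rfl
  rw [CU.smul_def, map_add, map_zsmul, map_zsmul, e, h, ← map_zsmul, ← map_zsmul, ← map_add,
    toC_apply]
  congr 1
  simp only [zsmul_eq_mul]
  ring

theorem cp_ne {P : A} {z : ℂ} (h : cp P = un z) : z ∈ LG.lattice ↔ P = 0 := by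
  rw [← un_eq_zero, ← h, map_eq_zero_iff _ cp_inj]

theorem cp_co {P : A} {z : ℂ} (h : cp P = un z) (h0 : P ≠ 0) :
    jc (xco P) = ℘[LG] z ∧ jc (yh P) = ℘'[LG] z / 2 := by
  obtain ⟨k, e⟩ := un_some (mt (cp_ne h).1 h0)
  have := xco_pm jc P
  rw [← cp, h, e, xco_some, yco_some] at this
  rw [yh_eq h0, map_add, ← this.1, ← this.2, map_div₀, map_one, map_ofNat]
  exact ⟨rfl, by ring⟩

theorem exists_cp {R : Pt ℂ} (hx : IsAlgebraic ℚ (xco R)) : ∃ P : A, cp P = R := by
  rcases R with _ | ⟨x, y, h⟩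
  · exact ⟨0, map_zero _⟩
  obtain ⟨u, hu⟩ := hx.isIntegral.mem_range_algHom_of_minpoly_splits (K := Qbar)
    (IsAlgClosed.splits _) jc.toRatAlgHom
  obtain ⟨v, hv⟩ := IsAlgClosed.exists_pow_nat_eq (4 * u ^ 3 - 27) two_pos
  have h1 : ((v - 1) / 2) ^ 2 + (v - 1) / 2 = u ^ 3 - 7 := by linear_combination hv / 4
  have h' := ns_iff.2 (show jc ((v - 1) / 2) ^ 2 + jc ((v - 1) / 2) = jc u ^ 3 - 7 by
    simpa only [map_add, map_sub, map_pow, map_ofNat] using congrArg jc h1)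
  rcases (Point.X_eq_iff (h₁ := h) (h₂ := h')).1 hu.symm with k | k
  · exact ⟨.some _ _ (ns_iff.2 h1), k.symm⟩
  · exact ⟨-.some _ _ (ns_iff.2 h1), (map_neg cp _).trans k.symm⟩

theorem exists_tq (a : O) {n : O} (hn : n ≠ 0) : ∃ P : A, cp P = un (Om * toC a / toC n) := by
  have n0 : (nm n : O) ≠ 0 := Int.cast_ne_zero.2 (nm_pos hn).ne'
  obtain ⟨R, hR, -⟩ := exists_rep n0
  have c0 : ∀ z, nm n • un z = un (toC (nm n : O) * z) := fun z => by
    rw [← map_zsmul, zsmul_eq_mul, map_intCast]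
  refine exists_cp (Gal.isAlgebraic_of_finite
    (S := (R.image fun r : O => xco (un (Om * toC r / toC (nm n : O))) : Finset ℂ)) (finite_toSet _)
    fun σ _ => ?_)
  obtain ⟨z, hz⟩ := un_surj (pm (σ : ℂ →+* ℂ) (un (Om * toC a / toC n)))
  have h1 : nm n • un (Om * toC a / toC n) = 0 := by
    rw [c0, un_eq_zero, ← mul_star_self, map_mul, mul_right_comm,
      mul_div_cancel₀ _ (coe_ne hn), mul_assoc, ← map_mul]
    exact mem_LG.2 ⟨_, rfl⟩
  have h2 : nm n • un z = 0 := by rw [hz, ← map_zsmul, h1, map_zero]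
  rw [c0, un_eq_zero, mem_LG] at h2
  obtain ⟨γ, h2⟩ := h2
  obtain ⟨r, hr, δ, e⟩ := hR.ex γ
  refine mem_coe.2 (mem_image.2 ⟨r, hr, ?_⟩)
  have h3 : un z = un (Om * toC r / toC (nm n : O)) := by
    rw [← sub_eq_zero, ← map_sub, un_eq_zero, mem_LG]
    refine ⟨δ, mul_left_cancel₀ (coe_ne n0) ?_⟩
    rw [mul_sub, h2, mul_div_cancel₀ _ (coe_ne n0), ← mul_sub, ← map_sub, e, map_mul, mul_left_comm]
  rw [← h3, hz, (xco_pm _ _).1]
  rfl

/-- The division point attached to `a / n`. -/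
noncomputable def tq (a n : O) : A := if hn : n = 0 then 0 else (exists_tq a hn).choose

variable {n : O}

theorem cp_tq (a : O) (hn : n ≠ 0) : cp (tq a n) = un (Om * toC a / toC n) := by
  rw [tq, dif_neg hn]
  exact (exists_tq a hn).choose_spec

theorem smul_tq (c a : O) (hn : n ≠ 0) : c • tq a n = tq (c * a) n := cp_inj (by
  rw [cp_smul c (cp_tq a hn), cp_tq _ hn, map_mul toC, mul_left_comm, mul_div_assoc (toC c)])

theorem tq_eq_zero {a : O} (hn : n ≠ 0) : tq a n = 0 ↔ n ∣ a := by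
  rw [← cp_ne (cp_tq a hn), div_mem_LG hn]

theorem tq_eq (a : O) (hn : n ≠ 0) : tq a n = a • tq 1 n := by rw [smul_tq _ _ hn, mul_one]

theorem tq_mul {c : O} (hc : c ≠ 0) (a : O) (hn : n ≠ 0) : tq (c * a) (c * n) = tq a n := cp_inj (by
  rw [cp_tq _ hn, cp_tq _ (mul_ne_zero hc hn), map_mul, map_mul, mul_left_comm,
    mul_div_mul_left _ _ (coe_ne hc)])

theorem smul_tq_one {a : O} (hn : n ≠ 0) : a • tq 1 n = 0 ↔ n ∣ a := by
  rw [← tq_eq _ hn, tq_eq_zero hn]

theorem exists_eq_tq (hn : n ≠ 0) {P : A} (h : n • P = 0) : ∃ a : O, P = a • tq 1 n := by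
  obtain ⟨z, hz⟩ := un_surj (cp P)
  obtain ⟨a, e⟩ := mem_LG.1 ((cp_ne (cp_smul n hz.symm)).2 h)
  exact ⟨a, cp_inj (by rw [← tq_eq _ hn, cp_tq _ hn, ← e, mul_div_cancel_left₀ _ (coe_ne hn), hz])⟩

theorem IsRep.inj {R : Finset O} (h : IsRep n R) : Set.InjOn (fun r => tq r n) R :=
  fun r hr r' hr' e => h.uq r hr r' hr' (by
    rw [← smul_tq_one h.ne, sub_smul, ← tq_eq _ h.ne, ← tq_eq _ h.ne, sub_eq_zero]
    exact e)

theorem IsRep.mem {R : Finset O} (h : IsRep n R) {P : A} :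
    P ∈ R.image (fun r => tq r n) ↔ n • P = 0 := by
  rw [mem_image]
  refine ⟨?_, fun k => ?_⟩
  · rintro ⟨r, -, rfl⟩
    rw [smul_tq _ _ h.ne, tq_eq_zero h.ne]
    exact dvd_mul_right _ _
  · obtain ⟨a, rfl⟩ := exists_eq_tq h.ne k
    obtain ⟨r, hr, e⟩ := h.ex a
    rw [← smul_tq_one h.ne, sub_smul, sub_eq_zero] at e
    exact ⟨r, hr, by rw [e, tq_eq _ h.ne]⟩

/-- The points that are killed by `n`. -/
noncomputable def En (n : O) : Finset A :=
  if hn : n = 0 then ∅ else (exists_rep hn).choose.image fun r => tq r n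

theorem mem_En (hn : n ≠ 0) {P : A} : P ∈ En n ↔ n • P = 0 := by
  rw [En, dif_neg hn]
  exact (exists_rep hn).choose_spec.1.mem

theorem IsRep.En {R : Finset O} (h : IsRep n R) : En n = R.image fun r => tq r n :=
  Finset.ext fun _ => (mem_En h.ne).trans h.mem.symm

theorem IsRep.En0 {R : Finset O} (h : IsRep n R) (h0 : 0 ∈ R) :
    (EW.En n).erase 0 = (R.erase 0).image fun r => tq r n := by
  ext P
  simp only [h.En, mem_erase, mem_image]
  refine ⟨fun ⟨a, r, b, c⟩ => ⟨r, ⟨fun e => a ?_, b⟩, c⟩, fun ⟨r, ⟨a, b⟩, c⟩ =>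
    ⟨fun e => a (h.uq _ b _ h0 ?_), r, b, c⟩⟩
  · rw [← c, e, tq_eq_zero h.ne]
    exact dvd_zero _
  · rw [sub_zero, ← tq_eq_zero h.ne, c, e]

theorem card_En (hn : n ≠ 0) : ((En n).card : ℤ) = nm n := by
  obtain ⟨R, h, -⟩ := exists_rep hn
  rw [h.En, card_image_of_injOn h.inj, h.card]

theorem zero_mem_En (hn : n ≠ 0) : (0 : A) ∈ En n := (mem_En hn).2 (smul_zero _)

/-- The multiplicative distribution relation. -/
theorem x_dist (hn : n ≠ 0) {P S : A} (hP : n • P ≠ 0) (hS : n • S ≠ 0) :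
    ∏ T ∈ En n, (xco (P + T) - xco S) =
      io n ^ 2 * (∏ T ∈ (En n).erase 0, (xco T - xco S)) * (xco (n • P) - xco (n • S)) := by
  obtain ⟨R, h, h0⟩ := exists_rep hn
  obtain ⟨z, hz⟩ := un_surj (cp P)
  obtain ⟨s, hs⟩ := un_surj (cp S)
  have a1 := cp_smul n hz.symm
  have a2 := cp_smul n hs.symm
  have s0 : S ≠ 0 := fun e => hS (by rw [e, smul_zero])
  refine jc.injective ?_
  rw [h.En0 h0, h.En, prod_image h.inj, prod_image (h.inj.mono (coe_subset.2 (erase_subset _ _)))]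
  simp only [map_mul, map_prod, map_sub, map_pow, jc_io, (cp_co a1 hP).1, (cp_co a2 hS).1,
    (cp_co hs.symm s0).1]
  rw [prod_congr rfl fun r hr => congrArg (· - _)
    (cp_co (cp_tq r hn) (mt (cp_ne (cp_tq r hn)).2 (h.notMem h0 hr))).1,
    ← h.wp_dist h0 (mt (cp_ne a1).1 hP) (mt (cp_ne a2).1 hS)]
  refine prod_congr rfl fun r _ => congrArg (· - _) ?_
  have a3 : cp (P + tq r n) = un (z + Om * toC r / toC n) := by rw [map_add, map_add, cp_tq _ hn, hz]
  exact (cp_co a3 (mt (cp_ne a3).2 (add_div_notMem hn (mt (cp_ne a1).1 hP) r))).1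

/-- The logarithmic derivative of the division polynomial. -/
theorem dlog_alg (hn : n ≠ 0) {P : A} {z : ℂ} (hz : cp P = un z) (hP : n • P ≠ 0) :
    toC n * Es LG (toC n * z) - nm n * Es LG z =
      jc (∑ T ∈ (En n).erase 0, yh P / (xco P - xco T)) := by
  obtain ⟨R, h, h0⟩ := exists_rep hn
  have p0 : P ≠ 0 := fun e => hP (by rw [e, smul_zero])
  have a1 := h.dlog h0 (mt (cp_ne (cp_smul n hz)).1 hP)
  rw [h.En0 h0, sum_image (h.inj.mono (coe_subset.2 (erase_subset _ _))), ← h.card,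
    Int.cast_natCast, map_sum]
  refine mul_left_cancel₀ (two_ne_zero (α := ℂ)) (a1.trans ?_)
  rw [mul_sum]
  refine sum_congr rfl fun r hr => ?_
  rw [map_div₀, map_sub, (cp_co hz p0).1, (cp_co hz p0).2,
    (cp_co (cp_tq r hn) (mt (cp_ne (cp_tq r hn)).2 (h.notMem h0 hr))).1]
  ring

end Pool.Agent.Lib.MP_696deb_nt.EW
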